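import Pool.Agent.K1H33.Tk.Lower

/-!
# Explicit bounds for the dimension spectrum
-/

set_option autoImplicit false

namespace Pool.Agent.K1H33.Tk

open Finset Filter Topology Pool.Agent.H316R3.Tak

lemma P_ge' {q : ℝ} (hq : 1 ≤ q) : Real.logb 4 ((2:ℝ) ^ q / (1 - 1 / 2 ^ q)) ≤ P q := by
  rcases hq.eq_or_lt with h | h
  · have h1 := s_add_le_P (α := 0) (q := 1) (by norm_num) one_pos
    have h2 := one_le_s_zero
    rw [← h]
    have h3 : Real.logb 4 ((2:ℝ) ^ (1:ℝ) / (1 - 1 / 2 ^ (1:ℝ))) = 1 := by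
      rw [Real.rpow_one]
      norm_num
    rw [h3]
    linarith
  · exact P_ge h

lemma log_bound {p x : ℝ} (hp0 : 0 ≤ p) (hx : 0 < x) : p * Real.log x ≤ p * Real.log p + (x - p) := by
  rcases hp0.eq_or_lt with h | h
  · rw [← h]; simp; exact hx.le
  · have h1 := Real.log_le_sub_one_of_pos (show 0 < x / p by positivity)
    rw [Real.log_div hx.ne' h.ne'] at h1
    have h2 := mul_le_mul_of_nonneg_left h1 h.le
    have h3 : p * (x / p - 1) = x - p := by field_simp
    rw [h3] at h2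
    linarith

/-- the entropy lower bound -/
theorem entropy_le_s {α : ℝ} (h0 : 0 ≤ α) (h1 : α ≤ 1 / 2) :
    (1 - α) * Real.binEntropy (1 / (2 * (1 - α))) / Real.log 2 ≤ s α := by
  have hl2 : 0 < Real.log 2 := Real.log_pos (by norm_num)
  rw [s_eq h0 h1]
  have hne : ((fun q : ℝ => P q - q * α) '' Set.Ici 1).Nonempty :=
    ⟨_, 1, Set.mem_Ici.2 le_rfl, rfl⟩
  apply le_csInf hne
  rintro _ ⟨q, hq, rfl⟩
  rw [Set.mem_Ici] at hq
  have h2 := P_ge' hq
  simp only
  set x : ℝ := 1 / 2 ^ q with hx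
  have h2q : (2:ℝ) ≤ 2 ^ q := by
    calc (2:ℝ) = 2 ^ (1:ℝ) := by norm_num
      _ ≤ 2 ^ q := Real.rpow_le_rpow_of_exponent_le (by norm_num) hq
  have hx0 : 0 < x := by positivity
  have hx1 : x ≤ 1 / 2 := by
    rw [hx]
    exact one_div_le_one_div_of_le (by norm_num) h2q
  have hlx : Real.log x = -(q * Real.log 2) := by
    rw [hx, Real.log_div one_ne_zero (by positivity), Real.log_one, Real.log_rpow (by norm_num)]
    ring
  have h4 : Real.log 4 = 2 * Real.log 2 := by
    rw [show (4:ℝ) = 2 ^ 2 by norm_num, Real.log_pow]; norm_num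
  have h3 : Real.logb 4 ((2:ℝ) ^ q / (1 - x)) = (q * Real.log 2 - Real.log (1 - x)) /
      (2 * Real.log 2) := by
    unfold Real.logb
    rw [Real.log_div (by positivity) (by linarith), Real.log_rpow (by norm_num), h4]
  rw [h3] at h2
  have ha : 0 < 1 - α := by linarith
  set p : ℝ := 1 / (2 * (1 - α)) with hp
  have hp0 : 0 < p := by positivity
  have hp1 : p ≤ 1 := by
    rw [hp, div_le_one (by positivity)]
    linarith
  have hpa : (1 - α) * p = 1 / 2 := by rw [hp]; field_simp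
  have hqa : (1 - α) * (1 - p) = 1 / 2 - α := by rw [mul_sub, hpa]; ring
  have h5 := log_bound (p := p) (x := 1 - x) hp0.le (by linarith)
  have h6 := log_bound (p := 1 - p) (x := x) (by linarith) hx0
  have h7 : p * Real.log (1 - x) + (1 - p) * Real.log x ≤
      p * Real.log p + (1 - p) * Real.log (1 - p) := by linarith
  have h8 : Real.binEntropy p = -(p * Real.log p + (1 - p) * Real.log (1 - p)) := by
    rw [Real.binEntropy, Real.log_inv, Real.log_inv]; ring
  have h9 : (1 - α) * Real.binEntropy p ≤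
      -((1 / 2) * Real.log (1 - x) + (1 / 2 - α) * Real.log x) := by
    rw [h8, ← hqa, ← hpa]
    have := mul_le_mul_of_nonneg_left h7 ha.le
    linarith
  rw [div_le_iff₀ hl2]
  refine h9.trans ?_
  rw [hlx]
  rw [div_le_iff₀ (by positivity)] at h2
  nlinarith

/-- the upper bound -/
theorem s_le_w {α w q : ℝ} (h1 : α ≤ 1 / 2) (hw1 : 1 ≤ w) (hw : w ^ 2 + 1 ≤ w ^ 3)
    (hw2 : w ≤ 2) (hq : 1 ≤ q) :
    s α ≤ q * (1 / 2 - α) - Real.logb 2 (1 - w ^ (q - 1) / 2 ^ q) / 2 := by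
  have h2 := s_add_le_P h1 (show 0 < q by linarith)
  have h3 := P_le hw1 hw hw2 hq
  have hw0 : 0 < w := by linarith
  have h4 : Real.log 4 = 2 * Real.log 2 := by
    rw [show (4:ℝ) = 2 ^ 2 by norm_num, Real.log_pow]; norm_num
  have hl2 : 0 < Real.log 2 := Real.log_pos (by norm_num)
  have h5 : w ^ (q - 1) / 2 ^ q ≤ 1 / 2 := by
    rw [div_le_iff₀ (by positivity)]
    calc w ^ (q - 1) ≤ 2 ^ (q - 1) := Real.rpow_le_rpow hw0.le hw2 (by linarith)
      _ = 1 / 2 * 2 ^ q := by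
          rw [Real.rpow_sub (by norm_num), Real.rpow_one]; ring
  have h6 : Real.logb 4 ((2:ℝ) ^ q / (1 - w ^ (q - 1) / 2 ^ q)) =
      q / 2 - Real.logb 2 (1 - w ^ (q - 1) / 2 ^ q) / 2 := by
    unfold Real.logb
    rw [Real.log_div (by positivity) (by linarith), Real.log_rpow (by norm_num), h4]
    field_simp
  rw [h6] at h3
  linarith

end Pool.Agent.K1H33.Tk
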