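import Mathlib

/-!
# Weighted counts of one-sided paths with a given value

`D x n m R` is the weighted number of the nearest neighbour paths on the nonnegative integers which
lead from `m` to `0` in `n` steps and have the value `R`; the weight is `x` to the number of
steps which start at `0`.
-/

set_option autoImplicit false

namespace Pool.Agent.K1H33.Tk

open Finset

/-- weighted number of the one-sided paths from height `m` to `0` in `n` steps, value `R` -/
noncomputable def D (x : ℝ) : ℕ → ℕ → ℕ → ℝ
  | 0, m, R => if m = 0 ∧ R = 0 then 1 else 0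
  | n + 1, 0, R => x * D x n 1 R
  | n + 1, m + 1, R => D x n (m + 2) R +
      (if (m + 2) * 2 ^ n ≤ R then D x n m (R - (m + 2) * 2 ^ n) else 0)

/-- weighted number of the one-sided paths from height `m` to `0` in `n` steps -/
noncomputable def W (x : ℝ) : ℕ → ℕ → ℝ
  | 0, m => if m = 0 then 1 else 0
  | n + 1, 0 => x * W x n 1
  | n + 1, m + 1 => W x n (m + 2) + W x n m

lemma D_nonneg {x : ℝ} (hx : 0 ≤ x) : ∀ n m R : ℕ, 0 ≤ D x n m R := by
  intro n
  induction n with
  | zero => intro m R; simp only [D]; split_ifs <;> norm_num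
  | succ n ih =>
    intro m R
    rcases m with _ | m
    · simp only [D]; exact mul_nonneg hx (ih _ _)
    · simp only [D]
      have h1 := ih (m + 2) R
      split_ifs with h
      · have := ih m (R - (m + 2) * 2 ^ n); linarith
      · linarith

lemma W_nonneg {x : ℝ} (hx : 0 ≤ x) : ∀ n m : ℕ, 0 ≤ W x n m := by
  intro n
  induction n with
  | zero => intro m; simp only [W]; split_ifs <;> norm_num
  | succ n ih =>
    intro m
    rcases m with _ | m
    · simp only [W]; exact mul_nonneg hx (ih _)
    · simp only [W]; have := ih (m + 2); have := ih m; linarith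

/-- sharp bound for the values -/
lemma D_eq_zero {x : ℝ} : ∀ n m R : ℕ, (3 * m * 2 ^ m + 2) * 2 ^ n < 3 * 2 ^ m * R →
    D x n m R = 0 := by
  intro n
  induction n with
  | zero =>
    intro m R h
    simp only [D]
    rw [if_neg]
    rintro ⟨rfl, rfl⟩
    simp at h
  | succ n ih =>
    intro m R h
    rcases m with _ | m
    · simp only [D]
      rw [ih 1 R, mul_zero]
      simp only [pow_zero, pow_succ, mul_zero, zero_add, mul_one] at h ⊢
      omega
    · simp only [D]
      have e1 : D x n (m + 2) R = 0 := by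
        apply ih
        have h2 := Nat.mul_lt_mul_of_pos_right h (show 0 < 2 by norm_num)
        calc (3 * (m + 2) * 2 ^ (m + 2) + 2) * 2 ^ n
            ≤ ((3 * (m + 1) * 2 ^ (m + 1) + 2) * 2 ^ (n + 1)) * 2 := by
              have : ((3 * (m + 1) * 2 ^ (m + 1) + 2) * 2 ^ (n + 1)) * 2
                = (3 * (m + 2) * 2 ^ (m + 2) + 2) * 2 ^ n + (3 * m * 2 ^ (m + 2) + 6) * 2 ^ n := by
                ring
              rw [this]
              exact Nat.le_add_right _ _
          _ < 3 * 2 ^ (m + 1) * R * 2 := h2
          _ = 3 * 2 ^ (m + 2) * R := by ring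
      rw [e1, zero_add]
      split_ifs with h3
      · obtain ⟨R', rfl⟩ := Nat.exists_eq_add_of_le h3
        rw [Nat.add_sub_cancel_left]
        apply ih
        have h4 : (3 * m * 2 ^ m + 2) * 2 ^ n * 2 + 3 * 2 ^ (m + 1) * ((m + 2) * 2 ^ n)
            = (3 * (m + 1) * 2 ^ (m + 1) + 2) * 2 ^ (n + 1) := by ring
        have h5 : 3 * 2 ^ (m + 1) * ((m + 2) * 2 ^ n + R')
            = 3 * 2 ^ m * R' * 2 + 3 * 2 ^ (m + 1) * ((m + 2) * 2 ^ n) := by ring
        omega
      · rfl

lemma D_eq_zero' {x : ℝ} {n m R : ℕ} (h : (m + 1) * 2 ^ n ≤ R) : D x n m R = 0 := by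
  apply D_eq_zero
  have h1 : 3 * 2 ^ m * ((m + 1) * 2 ^ n) ≤ 3 * 2 ^ m * R := Nat.mul_le_mul_left _ h
  have h2 : 3 * 2 ^ m * ((m + 1) * 2 ^ n) = (3 * m * 2 ^ m + 2) * 2 ^ n + (3 * 2 ^ m - 2) * 2 ^ n := by
    have h3 : 1 ≤ 2 ^ m := Nat.one_le_two_pow
    obtain ⟨a, ha⟩ := Nat.exists_eq_add_of_le h3
    rw [ha, show 3 * (1 + a) - 2 = 1 + 3 * a by omega]
    ring
  have h3 : 1 ≤ 2 ^ m := Nat.one_le_two_pow
  have h4 : 0 < (3 * 2 ^ m - 2) * 2 ^ n := by
    apply Nat.mul_pos
    · omega
    · positivity
  omega

lemma sum_shift (f : ℕ → ℝ) (a N : ℕ) (h : a ≤ N) :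
    ∑ R ∈ range N, (if a ≤ R then f (R - a) else 0) = ∑ R ∈ range (N - a), f R := by
  obtain ⟨b, rfl⟩ := Nat.exists_eq_add_of_le h
  rw [Finset.sum_range_add, Nat.add_sub_cancel_left]
  rw [Finset.sum_eq_zero, zero_add]
  · apply Finset.sum_congr rfl
    intro i _
    rw [if_pos (by omega), Nat.add_sub_cancel_left]
  · intro i hi
    rw [Finset.mem_range] at hi
    rw [if_neg (by omega)]

lemma sum_D {x : ℝ} : ∀ n m N : ℕ, (m + 1) * 2 ^ n ≤ N → ∑ R ∈ range N, D x n m R = W x n m := by
  intro n
  induction n with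
  | zero =>
    intro m N h
    simp only [D, W]
    rcases Nat.eq_zero_or_pos m with hm | hm
    · subst hm
      simp only [true_and, if_true]
      rw [Finset.sum_ite_eq' (range N) 0 (fun _ => (1:ℝ))]
      rw [if_pos]
      rw [Finset.mem_range]
      simp at h
      omega
    · simp [hm.ne']
  | succ n ih =>
    intro m N h
    rcases m with _ | m
    · simp only [D, W]
      rw [← Finset.mul_sum, ih 1 N]
      simpa [pow_succ, mul_comm] using h
    · simp only [D, W]
      rw [Finset.sum_add_distrib, ih (m + 2) N]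
      · rw [sum_shift (fun R => D x n m R)]
        · rw [ih m]
          have h2 : (m + 1 + 1) * 2 ^ (n + 1) = (m + 2) * 2 ^ n + (m + 1) * 2 ^ n + 2 ^ n := by ring
          have h3 : (m + 2) * 2 ^ n = (m + 1) * 2 ^ n + 2 ^ n := by ring
          have hp : 0 < 2 ^ n := by positivity
          omega
        · have h2 : (m + 1 + 1) * 2 ^ (n + 1) = (m + 2) * 2 ^ n + (m + 2) * 2 ^ n := by ring
          omega
      · have h2 : (m + 1 + 1) * 2 ^ (n + 1) = (m + 2 + 1) * 2 ^ n + (m + 1) * 2 ^ n := by ring
        omega

lemma D_up {x : ℝ} {n m R : ℕ} (h : R < (m + 2) * 2 ^ n) :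
    D x (n + 1) (m + 1) R = D x n (m + 2) R := by
  simp only [D]
  rw [if_neg (by omega), add_zero]

/-- The sup bound. -/
lemma D_le {w y : ℝ} (hy1 : 1 ≤ y) (hyw : y ^ 2 = w) (hw : w ^ 2 + 1 ≤ w ^ 3) :
    ∀ n m R : ℕ, D w n m R * y ^ m ≤ y ^ n := by
  have hy0 : 0 < y := by linarith
  have hw0 : 0 < w := by rw [← hyw]; positivity
  intro n
  induction n using Nat.strong_induction_on with
  | _ n IH =>
  intro m R
  rcases n with _ | n
  · simp only [D]
    split_ifs with h
    · rw [h.1]; simp
    · simp
  rcases m with _ | m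
  · simp only [D, pow_zero, mul_one]
    have h1 := IH n (by omega) 1 R
    rw [pow_one] at h1
    calc w * D w n 1 R = (D w n 1 R * y) * y := by rw [← hyw]; ring
      _ ≤ y ^ n * y := mul_le_mul_of_nonneg_right h1 hy0.le
      _ = y ^ (n + 1) := by ring
  have h1 := IH n (by omega) (m + 2) R
  have hmono : y ^ n ≤ y ^ (n + 1) * y := by
    calc y ^ n = y ^ n * 1 := by ring
      _ ≤ y ^ n * (y * y) := by
          apply mul_le_mul_of_nonneg_left _ (by positivity)
          nlinarith
      _ = y ^ (n + 1) * y := by ring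
  by_cases h2 : (m + 2) * 2 ^ n ≤ R
  · simp only [D]
    rw [if_pos h2]
    have h3 := IH n (by omega) m (R - (m + 2) * 2 ^ n)
    by_cases h4 : D w n (m + 2) R = 0
    · rw [h4, zero_add]
      calc D w n m (R - (m + 2) * 2 ^ n) * y ^ (m + 1)
          = (D w n m (R - (m + 2) * 2 ^ n) * y ^ m) * y := by ring
        _ ≤ y ^ n * y := mul_le_mul_of_nonneg_right h3 hy0.le
        _ = y ^ (n + 1) := by ring
    · -- the branching case
      obtain ⟨R', hR'⟩ := Nat.exists_eq_add_of_le h2
      have h5 : 3 * 2 ^ (m + 2) * R ≤ (3 * (m + 2) * 2 ^ (m + 2) + 2) * 2 ^ n := by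
        by_contra hcon
        exact h4 (D_eq_zero n (m + 2) R (not_le.1 hcon))
      have h6 : 6 * 2 ^ m * R' ≤ 2 ^ n := by
        rw [hR'] at h5
        have e1 : 3 * 2 ^ (m + 2) * ((m + 2) * 2 ^ n + R')
          = 3 * (m + 2) * 2 ^ (m + 2) * 2 ^ n + 2 * (6 * 2 ^ m * R') := by ring
        have e2 : (3 * (m + 2) * 2 ^ (m + 2) + 2) * 2 ^ n
          = 3 * (m + 2) * 2 ^ (m + 2) * 2 ^ n + 2 * 2 ^ n := by ring
        omega
      have e0 : R - (m + 2) * 2 ^ n = R' := by omega
      rw [e0] at h3 ⊢
      have h7 : D w n m R' * y ^ (m + 6) ≤ y ^ n := by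
        have hR6 : 6 * R' ≤ 2 ^ n := by
          have h1 : 1 ≤ 2 ^ m := Nat.one_le_two_pow
          calc 6 * R' = 6 * 1 * R' := by ring
            _ ≤ 6 * 2 ^ m * R' := by gcongr
            _ ≤ 2 ^ n := h6
        rcases Nat.eq_zero_or_pos m with hm | hm
        · subst hm
          -- from height zero: up to height four
          rcases n with _ | n
          · exfalso; apply h4; simp [D]
          · simp only [D]
            rcases n with _ | n
            · simp only [D]; simp; positivity
            rw [D_up (by have hp : 0 < 2 ^ n := by positivity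
                         omega)]
            rcases n with _ | n
            · simp only [D]; simp; positivity
            rw [D_up (by have hp : 0 < 2 ^ n := by positivity
                         omega)]
            rcases n with _ | n
            · simp only [D]; simp; positivity
            rw [D_up (by have hp : 0 < 2 ^ n := by positivity
                         omega)]
            have h8 := IH n (by omega) 4 R'
            calc w * D w n 4 R' * y ^ (0 + 6) = (D w n 4 R' * y ^ 4) * y ^ 4 := by
                  rw [← hyw]; ring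
              _ ≤ y ^ n * y ^ 4 := mul_le_mul_of_nonneg_right h8 (by positivity)
              _ = y ^ (n + 1 + 1 + 1 + 1) := by ring
        · obtain ⟨l, rfl⟩ : ∃ l, m = l + 1 := ⟨m - 1, by omega⟩
          rcases n with _ | n
          · simp only [D]; simp
          have hl : ∀ j : ℕ, 2 * 2 ^ j ≤ (l + 2) * 2 ^ j := fun j => by gcongr; omega
          rw [D_up (by have := hl n
                       have hp : 0 < 2 ^ n := by positivity
                       omega)]
          rcases n with _ | n
          · simp only [D]; simp; positivity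
          have hl' : ∀ j : ℕ, 2 * 2 ^ j ≤ (l + 1 + 2) * 2 ^ j := fun j => by gcongr; omega
          rw [D_up (by have := hl' n
                       have hp : 0 < 2 ^ n := by positivity
                       omega)]
          rcases n with _ | n
          · simp only [D]; simp; positivity
          have hl'' : ∀ j : ℕ, 3 * 2 ^ j ≤ (l + 2 + 2) * 2 ^ j := fun j => by gcongr; omega
          rw [D_up (by have := hl'' n
                       have hp : 0 < 2 ^ n := by positivity
                       have e3 : (l + 1 + 1 + 2) * 2 ^ n = (l + 2 + 2) * 2 ^ n := by ring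
                       omega)]
          have h8 := IH n (by omega) (l + 2 + 2) R'
          calc D w n (l + 2 + 2) R' * y ^ (l + 1 + 6) = (D w n (l + 2 + 2) R' * y ^ (l + 2 + 2)) * y ^ 3 := by
                ring
            _ ≤ y ^ n * y ^ 3 := mul_le_mul_of_nonneg_right h8 (by positivity)
            _ = y ^ (n + 1 + 1 + 1) := by ring
      -- combine
      have h9 : y ^ 4 + 1 ≤ y ^ 6 := by
        have : w ^ 2 = y ^ 4 := by rw [← hyw]; ring
        have : w ^ 3 = y ^ 6 := by rw [← hyw]; ring
        linarith
      have h10 : (D w n (m + 2) R + D w n m R') * y ^ (m + 1) * y ^ 5 ≤ y ^ (n + 1) * y ^ 5 := by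
        calc (D w n (m + 2) R + D w n m R') * y ^ (m + 1) * y ^ 5
            = (D w n (m + 2) R * y ^ (m + 2)) * y ^ 4 + D w n m R' * y ^ (m + 6) := by ring
          _ ≤ y ^ n * y ^ 4 + y ^ n := by
              have := mul_le_mul_of_nonneg_right h1 (show 0 ≤ y ^ 4 by positivity)
              linarith
          _ = y ^ n * (y ^ 4 + 1) := by ring
          _ ≤ y ^ n * y ^ 6 := mul_le_mul_of_nonneg_left h9 (by positivity)
          _ = y ^ (n + 1) * y ^ 5 := by ring
      exact le_of_mul_le_mul_right h10 (by positivity)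
  · rw [D_up (by omega)]
    have h3 : D w n (m + 2) R * y ^ (m + 1) * y ≤ y ^ (n + 1) * y := by
      calc D w n (m + 2) R * y ^ (m + 1) * y = D w n (m + 2) R * y ^ (m + 2) := by ring
        _ ≤ y ^ n := h1
        _ ≤ y ^ (n + 1) * y := hmono
    exact le_of_mul_le_mul_right h3 hy0

end Pool.Agent.K1H33.Tk
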