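import Pool.Agent.K1H33.Tk.Dual
import Pool.Agent.R425.MK.Lim

/-!
# Covers of the level sets
-/

set_option autoImplicit false

namespace Pool.Agent.K1H33.Tk

open Finset Filter Topology Pool.Agent.H316R3.Tak

/-- the dyadic intervals which meet `T x + m x = r` -/
def Mset (n : ℕ) (m : ℤ) (r : ℝ) (j : ℕ) : Prop :=
  ∃ z : ℝ, 0 ≤ z ∧ z ≤ 1 ∧ T ((j + z) / 2 ^ n) + m * ((j + z) / 2 ^ n) = r

open Classical in
/-- their number -/
noncomputable def M (n : ℕ) (m : ℤ) (r : ℝ) : ℕ := ((range (2 ^ n)).filter (Mset n m r)).card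

lemma M_succ (n : ℕ) (m : ℤ) (r : ℝ) :
    M (n + 1) m r = M n (m + 1) (2 * r) + M n (m - 1) (2 * r - m - 1) := by
  classical
  unfold M
  rw [card_split]
  congr 1
  · congr 1
    apply Finset.filter_congr
    intro j hj
    rw [Finset.mem_range] at hj
    have hj' : (j:ℝ) + 1 ≤ 2 ^ n := by exact_mod_cast hj
    have key : ∀ z : ℝ, 0 ≤ z → z ≤ 1 →
        2 * (T ((j + z) / 2 ^ (n + 1)) + m * ((j + z) / 2 ^ (n + 1))) =
          T ((j + z) / 2 ^ n) + (m + 1) * ((j + z) / 2 ^ n) := by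
      intro z h0 h1
      have e1 : T ((j + z) / 2 ^ (n + 1)) = (j + z) / 2 ^ (n + 1) + T ((j + z) / 2 ^ n) / 2 := by
        rw [T_left (by positivity)]
        · congr 3; rw [pow_succ]; field_simp
        · rw [pow_succ, div_le_iff₀ (by positivity)]; linarith
      rw [e1, pow_succ]
      field_simp
      ring
    constructor
    · rintro ⟨z, h0, h1, h2⟩
      refine ⟨z, h0, h1, ?_⟩
      have := key z h0 h1
      push_cast
      linarith
    · rintro ⟨z, h0, h1, h2⟩
      refine ⟨z, h0, h1, ?_⟩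
      have := key z h0 h1
      push_cast at h2
      linarith
  · congr 1
    apply Finset.filter_congr
    intro j hj
    rw [Finset.mem_range] at hj
    have hj' : (j:ℝ) + 1 ≤ 2 ^ n := by exact_mod_cast hj
    have key : ∀ z : ℝ, 0 ≤ z → z ≤ 1 →
        2 * (T ((((2 ^ n + j : ℕ) : ℝ) + z) / 2 ^ (n + 1)) +
          m * ((((2 ^ n + j : ℕ) : ℝ) + z) / 2 ^ (n + 1))) =
          T ((j + z) / 2 ^ n) + (m - 1) * ((j + z) / 2 ^ n) + m + 1 := by
      intro z h0 h1
      have e1 : T ((((2 ^ n + j : ℕ) : ℝ) + z) / 2 ^ (n + 1))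
          = 1 - (((2 ^ n + j : ℕ) : ℝ) + z) / 2 ^ (n + 1) + T ((j + z) / 2 ^ n) / 2 := by
        rw [T_right]
        · congr 3; push_cast; rw [pow_succ]; field_simp; ring
        · rw [pow_succ, le_div_iff₀ (by positivity)]; push_cast; linarith [Nat.cast_nonneg (α := ℝ) j]
        · rw [pow_succ, div_le_iff₀ (by positivity)]; push_cast; linarith
      rw [e1, pow_succ]
      push_cast
      field_simp
      ring
    constructor
    · rintro ⟨z, h0, h1, h2⟩
      refine ⟨z, h0, h1, ?_⟩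
      have := key z h0 h1
      push_cast at h2 this ⊢
      linarith
    · rintro ⟨z, h0, h1, h2⟩
      refine ⟨z, h0, h1, ?_⟩
      have := key z h0 h1
      push_cast at h2 this ⊢
      linarith

lemma M_symm : ∀ (n : ℕ) (m : ℤ) (r : ℝ), M n (-m) (r - m) = M n m r := by
  intro n
  induction n with
  | zero =>
    intro m r
    classical
    unfold M
    congr 1
    apply Finset.filter_congr
    intro j hj
    have hj0 : j = 0 := by simpa using hj
    subst hj0
    unfold Mset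
    simp only [Nat.cast_zero, zero_add, pow_zero, div_one]
    constructor
    · rintro ⟨z, h0, h1, h2⟩
      refine ⟨1 - z, by linarith, by linarith, ?_⟩
      rw [T_symm]
      push_cast at h2
      linarith
    · rintro ⟨z, h0, h1, h2⟩
      refine ⟨1 - z, by linarith, by linarith, ?_⟩
      rw [T_symm]
      push_cast
      linarith
  | succ n ih =>
    intro m r
    rw [M_succ, M_succ n m r, add_comm]
    rw [← ih (m - 1) (2 * r - m - 1), ← ih (m + 1) (2 * r)]
    congr 2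
    · ring
    · push_cast; ring
    · ring
    · push_cast; ring

lemma M_neg {n : ℕ} {m : ℤ} {r : ℝ} (hm : 0 ≤ m) (hr : r < 0) : M n m r = 0 := by
  classical
  unfold M
  rw [Finset.card_eq_zero, Finset.filter_eq_empty_iff]
  rintro j - ⟨z, h0, h1, h2⟩
  have h3 := T_nonneg ((j + z) / 2 ^ n)
  have h4 : (0:ℝ) ≤ m := by exact_mod_cast hm
  have h5 : 0 ≤ (m:ℝ) * ((j + z) / 2 ^ n) := by positivity
  linarith

lemma M_big {n m : ℕ} {r : ℝ} (hr : (m:ℝ) + 1 ≤ r) : M n m r = 0 := by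
  classical
  unfold M
  rw [Finset.card_eq_zero, Finset.filter_eq_empty_iff]
  rintro j hj ⟨z, h0, h1, h2⟩
  rw [Finset.mem_range] at hj
  have hj' : (j:ℝ) + 1 ≤ 2 ^ n := by exact_mod_cast hj
  have h3 := T_bound m ((j + z) / 2 ^ n) (by positivity)
    (by rw [div_le_one (by positivity)]; linarith)
  have h4 : (2:ℝ) / 3 / 2 ^ m < 1 := by
    rw [div_lt_one (by positivity)]
    have : (1:ℝ) ≤ 2 ^ m := one_le_pow₀ (by norm_num)
    linarith
  push_cast at h2
  linarith

lemma M_zero_le (m : ℤ) (r : ℝ) : M 0 m r ≤ 1 := by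
  classical
  unfold M
  refine (Finset.card_filter_le _ _).trans ?_
  simp

/-- the main counting estimate -/
lemma M_le : ∀ n : ℕ,
    (∀ r : ℝ, (M n 0 r : ℝ) ≤ ∑ t ∈ range (n + 1), D 2 t 0 ⌊2 ^ t * r⌋₊ * (2 * ((n - t : ℕ) + 1))) ∧
    (∀ (m : ℕ) (r : ℝ), (M n (m + 1 : ℕ) r : ℝ) ≤
      ∑ t ∈ range (n + 1), D 2 t (m + 1) ⌊2 ^ t * r⌋₊ * (2 * ((n - t : ℕ) + 1)) + Ps n m r) := by
  have hnn : ∀ n m : ℕ, ∀ r : ℝ,
      0 ≤ ∑ t ∈ range (n + 1), D 2 t m ⌊2 ^ t * r⌋₊ * (2 * (((n - t : ℕ) : ℝ) + 1)) := by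
    intro n m r
    apply Finset.sum_nonneg
    intro t _
    exact mul_nonneg (D_nonneg (by norm_num) _ _ _) (by positivity)
  intro n
  induction n with
  | zero =>
    refine ⟨fun r => ?_, fun m r => ?_⟩
    · rcases lt_or_ge r 0 with h | h
      · rw [M_neg le_rfl h]; simpa using hnn 0 0 r
      rcases lt_or_ge r 1 with h' | h'
      · have h1 := M_zero_le 0 r
        have h2 : ⌊r⌋₊ = 0 := Nat.floor_eq_zero.2 h'
        simp only [zero_add, Finset.sum_range_one, pow_zero, one_mul, h2, D]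
        norm_num
        omega
      · have : M 0 ((0:ℕ):ℤ) r = 0 := M_big (by push_cast; linarith)
        rw [Nat.cast_zero] at this
        rw [this]; simpa using hnn 0 0 r
    · have h0 := hnn 0 (m + 1) r
      rcases lt_or_ge r 0 with h | h
      · rw [M_neg (by positivity) h]
        have : (0:ℝ) ≤ Ps 0 m r := Nat.cast_nonneg _
        push_cast
        linarith
      rcases lt_or_ge r (m + 2) with h' | h'
      · have h1 : (M 0 ((m + 1 : ℕ) : ℤ) r : ℝ) ≤ 1 := by exact_mod_cast M_zero_le _ r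
        have h2 : Ps 0 m r = 1 := by simp only [Ps]; rw [if_pos ⟨h, h'⟩]
        rw [h2]
        push_cast at h1 ⊢
        linarith
      · have : M 0 ((m + 1 : ℕ) : ℤ) r = 0 := M_big (by push_cast; linarith)
        rw [this]
        have : (0:ℝ) ≤ Ps 0 m r := Nat.cast_nonneg _
        push_cast
        linarith
  | succ n ih =>
    obtain ⟨ihA, ihB⟩ := ih
    refine ⟨fun r => ?_, fun m r => ?_⟩
    · rcases lt_or_ge r 0 with h | h
      · rw [M_neg le_rfl h]; simpa using hnn (n + 1) 0 r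
      rcases lt_or_ge r 1 with h' | h'
      swap
      · have : M (n + 1) ((0:ℕ):ℤ) r = 0 := M_big (by push_cast; linarith)
        rw [Nat.cast_zero] at this
        rw [this]; simpa using hnn (n + 1) 0 r
      have e1 : M (n + 1) 0 r = 2 * M n 1 (2 * r) := by
        rw [M_succ]
        have h2 := M_symm n 1 (2 * r)
        have e2 : (0:ℤ) - 1 = -1 := by norm_num
        have e3 : 2 * r - ((0:ℤ):ℝ) - 1 = 2 * r - ((1:ℤ):ℝ) := by push_cast; ring
        rw [e2, e3, h2]
        norm_num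
        ring
      have h3 := ihB 0 (2 * r)
      rw [e1, Finset.sum_range_succ']
      have h4 : (Ps n 0 (2 * r) : ℝ) ≤ n + 1 := by exact_mod_cast Ps_le n 0 (2 * r)
      have h5 : ⌊(2:ℝ) ^ 0 * r⌋₊ = 0 := by rw [pow_zero, one_mul]; exact Nat.floor_eq_zero.2 h'
      rw [h5]
      have h6 : D 2 0 0 0 = 1 := by simp [D]
      rw [h6]
      have h7 : ∑ t ∈ range (n + 1), D 2 (t + 1) 0 ⌊(2:ℝ) ^ (t + 1) * r⌋₊ *
          (2 * (((n + 1 - (t + 1) : ℕ) : ℝ) + 1)) =
          2 * ∑ t ∈ range (n + 1), D 2 t (0 + 1) ⌊(2:ℝ) ^ t * (2 * r)⌋₊ *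
            (2 * (((n - t : ℕ) : ℝ) + 1)) := by
        rw [Finset.mul_sum]
        apply Finset.sum_congr rfl
        intro t _
        have e4 : (2:ℝ) ^ (t + 1) * r = 2 ^ t * (2 * r) := by ring
        have e5 : n + 1 - (t + 1) = n - t := by omega
        rw [e4, e5]
        simp only [D]
        ring
      rw [h7]
      have h8 : ((2 * M n 1 (2 * r) : ℕ) : ℝ) = 2 * (M n ((0 + 1 : ℕ) : ℤ) (2 * r) : ℝ) := by
        push_cast; norm_num
      rw [h8]
      push_cast
      have e6 : ((n + 1 - 0 : ℕ) : ℝ) = n + 1 := by push_cast; ring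
      push_cast at h3 e6 ⊢
      linarith
    · rcases lt_or_ge r 0 with h | h
      · rw [M_neg (by positivity) h]
        have := hnn (n + 1) (m + 1) r
        have : (0:ℝ) ≤ Ps (n + 1) m r := Nat.cast_nonneg _
        push_cast at *
        linarith
      have e1 : M (n + 1) ((m + 1 : ℕ) : ℤ) r =
          M n ((m + 1 + 1 : ℕ) : ℤ) (2 * r) + M n (m : ℤ) (2 * r - (m + 2)) := by
        rw [M_succ]
        congr 2
        · push_cast; ring
        · push_cast; ring
      have hS : ∑ t ∈ range (n + 1), (D 2 t (m + 2) ⌊(2:ℝ) ^ t * (2 * r)⌋₊ *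
            (2 * (((n - t : ℕ) : ℝ) + 1))) +
          ∑ t ∈ range (n + 1), ((if (m + 2) * 2 ^ t ≤ ⌊(2:ℝ) ^ t * (2 * r)⌋₊ then
            D 2 t m (⌊(2:ℝ) ^ t * (2 * r)⌋₊ - (m + 2) * 2 ^ t) else 0) *
            (2 * (((n - t : ℕ) : ℝ) + 1))) =
          ∑ t ∈ range (n + 1 + 1), D 2 t (m + 1) ⌊(2:ℝ) ^ t * r⌋₊ *
            (2 * (((n + 1 - t : ℕ) : ℝ) + 1)) := by
        rw [Finset.sum_range_succ' _ (n + 1)]
        have h6 : D 2 0 (m + 1) ⌊(2:ℝ) ^ 0 * r⌋₊ = 0 := by simp [D]
        rw [h6, zero_mul, add_zero, ← Finset.sum_add_distrib]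
        apply Finset.sum_congr rfl
        intro t _
        have e4 : (2:ℝ) ^ (t + 1) * r = 2 ^ t * (2 * r) := by ring
        have e5 : n + 1 - (t + 1) = n - t := by omega
        rw [e4, e5]
        simp only [D]
        ring
      rw [← hS, e1]
      have h2 := ihB (m + 1) (2 * r)
      rcases lt_or_ge (2 * r - (m + 2)) 0 with h3 | h3
      · rw [M_neg (by positivity) h3]
        have h4 : (0:ℝ) ≤ ∑ t ∈ range (n + 1), ((if (m + 2) * 2 ^ t ≤ ⌊(2:ℝ) ^ t * (2 * r)⌋₊ then
            D 2 t m (⌊(2:ℝ) ^ t * (2 * r)⌋₊ - (m + 2) * 2 ^ t) else 0) *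
            (2 * (((n - t : ℕ) : ℝ) + 1))) := by
          apply Finset.sum_nonneg
          intro t _
          apply mul_nonneg _ (by positivity)
          split_ifs
          · exact D_nonneg (by norm_num) _ _ _
          · exact le_rfl
        have h5 : (Ps n (m + 1) (2 * r) : ℝ) ≤ Ps (n + 1) m r := by
          rcases m with _ | m
          · simp only [Ps]; exact le_rfl
          · simp only [Ps]; push_cast; linarith [Nat.cast_nonneg (α := ℝ) (Ps n m (2 * r - (m + 3)))]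
        push_cast at h2 ⊢
        have e7 : (m:ℝ) + 1 + 1 = m + 2 := by ring
        linarith
      · -- both terms
        have hfl : ∀ t : ℕ, (m + 2) * 2 ^ t ≤ ⌊(2:ℝ) ^ t * (2 * r)⌋₊ ∧
            ⌊(2:ℝ) ^ t * (2 * r)⌋₊ - (m + 2) * 2 ^ t = ⌊(2:ℝ) ^ t * (2 * r - (m + 2))⌋₊ := by
          intro t
          have hp : (0:ℝ) < 2 ^ t := by positivity
          refine ⟨?_, ?_⟩
          · apply Nat.le_floor
            push_cast
            nlinarith
          · have e8 : (2:ℝ) ^ t * (2 * r - (m + 2)) = 2 ^ t * (2 * r) - ((m + 2) * 2 ^ t : ℕ) := by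
              push_cast; ring
            rw [e8, Nat.floor_sub_natCast]
        have hT : ∑ t ∈ range (n + 1), ((if (m + 2) * 2 ^ t ≤ ⌊(2:ℝ) ^ t * (2 * r)⌋₊ then
            D 2 t m (⌊(2:ℝ) ^ t * (2 * r)⌋₊ - (m + 2) * 2 ^ t) else 0) *
            (2 * (((n - t : ℕ) : ℝ) + 1))) = ∑ t ∈ range (n + 1),
            (D 2 t m ⌊(2:ℝ) ^ t * (2 * r - (m + 2))⌋₊ * (2 * (((n - t : ℕ) : ℝ) + 1))) := by
          apply Finset.sum_congr rfl
          intro t _
          rw [if_pos (hfl t).1, (hfl t).2]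
        rw [hT]
        rcases m with _ | m
        · have h4 := ihA (2 * r - ((0:ℕ) + 2))
          simp only [Ps]
          push_cast at h2 h4 ⊢
          norm_num at h2 h4 ⊢
          linarith
        · have h4 := ihB m (2 * r - ((m + 1 : ℕ) + 2))
          simp only [Ps]
          have e9 : (2 * r - (((m + 1 : ℕ) : ℝ) + 2)) = 2 * r - (m + 3) := by push_cast; ring
          rw [e9] at h4 ⊢
          push_cast at h2 h4 ⊢
          have e10 : (m:ℤ) + 1 + 1 + 1 = ((m:ℤ) + 1 + 1) + 1 := by ring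
          linarith

lemma D_odd {x : ℝ} : ∀ n m R : ℕ, (n + m) % 2 = 1 → D x n m R = 0 := by
  intro n
  induction n with
  | zero => intro m R h; simp only [D]; rw [if_neg]; rintro ⟨rfl, -⟩; omega
  | succ n ih =>
    intro m R h
    rcases m with _ | m
    · simp only [D]; rw [ih 1 R (by omega), mul_zero]
    · simp only [D]
      rw [ih (m + 2) R (by omega)]
      split_ifs
      · rw [ih m _ (by omega), add_zero]
      · rw [add_zero]

lemma M_zero_bound (n : ℕ) (y : ℝ) :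
    (M n 0 y : ℝ) ≤ 2 * (n + 1) * ∑ k ∈ range (n / 2 + 1), (B k ⌊(4:ℝ) ^ k * y⌋₊ : ℝ) := by
  have h1 := (M_le n).1 y
  refine h1.trans ?_
  have h2 : ∀ t ∈ range (n + 1), D 2 t 0 ⌊(2:ℝ) ^ t * y⌋₊ * (2 * (((n - t : ℕ) : ℝ) + 1)) ≤
      2 * (n + 1) * (if t % 2 = 0 then (B (t / 2) ⌊(4:ℝ) ^ (t / 2) * y⌋₊ : ℝ) else 0) := by
    intro t ht
    split_ifs with h
    · have e : t = 2 * (t / 2) := by omega
      have e2 : D 2 t 0 ⌊(2:ℝ) ^ t * y⌋₊ = (B (t / 2) ⌊(4:ℝ) ^ (t / 2) * y⌋₊ : ℝ) := by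
        rw [B_eq_D, ← e]
        congr 3
        rw [e, pow_mul]
        norm_num
      rw [e2]
      have h3 : (((n - t : ℕ) : ℝ) + 1) ≤ n + 1 := by
        have : ((n - t : ℕ) : ℝ) ≤ n := by exact_mod_cast Nat.sub_le n t
        linarith
      have h4 : (0:ℝ) ≤ B (t / 2) ⌊(4:ℝ) ^ (t / 2) * y⌋₊ := Nat.cast_nonneg _
      nlinarith
    · rw [D_odd t 0 _ (by omega)]; simp
  refine (Finset.sum_le_sum h2).trans ?_
  rw [← Finset.mul_sum]
  apply mul_le_mul_of_nonneg_left _ (by positivity)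
  rw [← Finset.sum_filter]
  calc ∑ t ∈ (range (n + 1)).filter (fun t => t % 2 = 0), (B (t / 2) ⌊(4:ℝ) ^ (t / 2) * y⌋₊ : ℝ)
      = ∑ k ∈ ((range (n + 1)).filter (fun t => t % 2 = 0)).image (fun t => t / 2),
          (B k ⌊(4:ℝ) ^ k * y⌋₊ : ℝ) := by
        rw [Finset.sum_image]
        intro a ha b hb hab
        have ha' := (Finset.mem_filter.1 (Finset.mem_coe.1 ha)).2
        have hb' := (Finset.mem_filter.1 (Finset.mem_coe.1 hb)).2
        simp only at hab
        omega
    _ ≤ _ := by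
        apply Finset.sum_le_sum_of_subset_of_nonneg
        · intro k hk
          obtain ⟨t, ht, rfl⟩ := Finset.mem_image.1 hk
          have := Finset.mem_range.1 (Finset.mem_filter.1 ht).1
          rw [Finset.mem_range]
          omega
        · intro k _ _
          positivity

end Pool.Agent.K1H33.Tk
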