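import Pool.Agent.K1H33.Tk.Press

/-!
# The counting exponent, its concavity, and the duality with the pressure
-/

set_option autoImplicit false

namespace Pool.Agent.K1H33.Tk

open Finset Filter Topology

/-- the counting exponent of one level -/
noncomputable def sk (a : ℝ) (k : ℕ) : ℝ := Real.logb 4 (N k ((4:ℝ) ^ (a * k))) / k

/-- the counting exponent -/
noncomputable def s (a : ℝ) : ℝ := sSup (sk a '' Set.Ici 1)

lemma logb_nat_nonneg (n : ℕ) : 0 ≤ Real.logb 4 (n:ℝ) := by
  rcases Nat.eq_zero_or_pos n with h | h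
  · subst h; simp
  · exact Real.logb_nonneg (by norm_num) (by exact_mod_cast h)

lemma sk_nonneg (a : ℝ) (k : ℕ) : 0 ≤ sk a k :=
  div_nonneg (logb_nat_nonneg _) (Nat.cast_nonneg _)

lemma sk_le_one (a : ℝ) {k : ℕ} (hk : 1 ≤ k) : sk a k ≤ 1 := by
  have hk' : (0:ℝ) < k := by exact_mod_cast hk
  unfold sk
  rw [div_le_one hk']
  rcases Nat.eq_zero_or_pos (N k ((4:ℝ) ^ (a * k))) with h | h
  · rw [h]; simp
  · rw [Real.logb_le_iff_le_rpow (by norm_num) (by exact_mod_cast h), Real.rpow_natCast]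
    exact_mod_cast N_le k _

lemma sk_ne (a : ℝ) : (sk a '' Set.Ici 1).Nonempty := ⟨_, 1, Set.mem_Ici.2 le_rfl, rfl⟩

lemma sk_bdd (a : ℝ) : BddAbove (sk a '' Set.Ici 1) := by
  refine ⟨1, ?_⟩
  rintro _ ⟨k, hk, rfl⟩
  exact sk_le_one a hk

lemma sk_le_s (a : ℝ) {k : ℕ} (hk : 1 ≤ k) : sk a k ≤ s a :=
  le_csSup (sk_bdd a) ⟨k, hk, rfl⟩

lemma s_nonneg (a : ℝ) : 0 ≤ s a := (sk_nonneg a 1).trans (sk_le_s a le_rfl)

lemma s_le_one (a : ℝ) : s a ≤ 1 := by
  apply csSup_le (sk_ne _)
  rintro _ ⟨k, hk, rfl⟩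
  exact sk_le_one a hk

lemma N_le_s (a : ℝ) {k : ℕ} (hk : 1 ≤ k) :
    (N k ((4:ℝ) ^ (a * k)) : ℝ) ≤ (4:ℝ) ^ (k * s a) := by
  have hk' : (0:ℝ) < k := by exact_mod_cast hk
  rcases Nat.eq_zero_or_pos (N k ((4:ℝ) ^ (a * k))) with h | h
  · rw [h]; simp; positivity
  · rw [← Real.logb_le_iff_le_rpow (by norm_num) (by exact_mod_cast h)]
    have := sk_le_s a hk
    unfold sk at this
    rw [div_le_iff₀ hk'] at this
    linarith

lemma thr_le {a : ℝ} (ha : a ≤ 1 / 2) (k : ℕ) : (4:ℝ) ^ (a * k) ≤ 2 ^ k := by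
  rw [two_pow_eq]
  apply Real.rpow_le_rpow_of_exponent_le (by norm_num)
  have : (0:ℝ) ≤ k := Nat.cast_nonneg k
  nlinarith

lemma N_thr_pos {a : ℝ} (ha : a ≤ 1 / 2) (k : ℕ) : 1 ≤ N k ((4:ℝ) ^ (a * k)) :=
  N_pos (thr_le ha k)

lemma s_anti {a b : ℝ} (hab : a ≤ b) (hb : b ≤ 1 / 2) : s b ≤ s a := by
  apply csSup_le (sk_ne _)
  rintro _ ⟨k, hk, rfl⟩
  refine le_trans ?_ (sk_le_s a hk)
  unfold sk
  apply div_le_div_of_nonneg_right _ (Nat.cast_nonneg k)
  apply Real.logb_le_logb_of_le (by norm_num)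
  · exact_mod_cast N_thr_pos hb k
  · have : N k ((4:ℝ) ^ (b * k)) ≤ N k ((4:ℝ) ^ (a * k)) := by
      apply N_anti
      apply Real.rpow_le_rpow_of_exponent_le (by norm_num)
      have : (0:ℝ) ≤ k := Nat.cast_nonneg k
      nlinarith
    exact_mod_cast this

lemma s_mix_aux {a b : ℝ} (ha : a ≤ 1 / 2) (hb : b ≤ 1 / 2) (p q : ℕ) (hpq : 1 ≤ p + q)
    {k l : ℕ} (hk : 1 ≤ k) (hl : 1 ≤ l) :
    p * sk a k + q * sk b l ≤ (p + q) * s ((p * a + q * b) / (p + q)) := by
  set γ : ℝ := (p * a + q * b) / (p + q) with hγ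
  have hk' : (0:ℝ) < k := by exact_mod_cast hk
  have hl' : (0:ℝ) < l := by exact_mod_cast hl
  have hpq' : (0:ℝ) < p + q := by exact_mod_cast hpq
  have hγ' : γ * (p + q) = p * a + q * b := by rw [hγ]; field_simp
  have h1 := N_pow k (t := (4:ℝ) ^ (a * k)) (by positivity) (p * l)
  have h2 := N_pow l (t := (4:ℝ) ^ (b * l)) (by positivity) (q * k)
  have h3 := N_mul (p * l * k) (q * k * l) (t := ((4:ℝ) ^ (a * k)) ^ (p * l))
    (t' := ((4:ℝ) ^ (b * l)) ^ (q * k)) (by positivity)
  have hM : 1 ≤ p * l * k + q * k * l := by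
    have : p * l * k + q * k * l = (p + q) * (k * l) := by ring
    rw [this]
    exact Nat.one_le_iff_ne_zero.2 (by positivity)
  have e : ((4:ℝ) ^ (a * k)) ^ (p * l) * ((4:ℝ) ^ (b * l)) ^ (q * k) =
      (4:ℝ) ^ (γ * ((p * l * k + q * k * l : ℕ) : ℝ)) := by
    rw [← Real.rpow_natCast, ← Real.rpow_natCast, ← Real.rpow_mul (by norm_num),
      ← Real.rpow_mul (by norm_num), ← Real.rpow_add (by norm_num)]
    congr 1
    push_cast
    calc a * k * (p * l) + b * l * (q * k) = (p * a + q * b) * (k * l) := by ring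
      _ = γ * (p + q) * (k * l) := by rw [hγ']
      _ = _ := by ring
  rw [e] at h3
  have h4 := sk_le_s γ hM
  have h5 : (0:ℝ) < ((p * l * k + q * k * l : ℕ) : ℝ) := by exact_mod_cast hM
  unfold sk at h4
  rw [div_le_iff₀ h5] at h4
  have h6 : N k ((4:ℝ) ^ (a * k)) ^ (p * l) * N l ((4:ℝ) ^ (b * l)) ^ (q * k) ≤
      N (p * l * k + q * k * l) ((4:ℝ) ^ (γ * ((p * l * k + q * k * l : ℕ) : ℝ))) :=
    (Nat.mul_le_mul h1 h2).trans h3
  have hNa : (0:ℝ) < N k ((4:ℝ) ^ (a * k)) := by exact_mod_cast N_thr_pos ha k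
  have hNb : (0:ℝ) < N l ((4:ℝ) ^ (b * l)) := by exact_mod_cast N_thr_pos hb l
  have h7 : Real.logb 4 ((N k ((4:ℝ) ^ (a * k)) : ℝ) ^ (p * l) *
      (N l ((4:ℝ) ^ (b * l)) : ℝ) ^ (q * k)) ≤ Real.logb 4
      (N (p * l * k + q * k * l) ((4:ℝ) ^ (γ * ((p * l * k + q * k * l : ℕ) : ℝ)))) := by
    apply Real.logb_le_logb_of_le (by norm_num) (by positivity)
    exact_mod_cast h6
  rw [Real.logb_mul (by positivity) (by positivity), Real.logb_pow, Real.logb_pow] at h7
  have h8 := h7.trans h4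
  push_cast at h8
  unfold sk
  have hkl : (0:ℝ) < k * l := by positivity
  rw [← sub_nonneg] at h8 ⊢
  have e2 : (p + q) * s γ - (p * (Real.logb 4 (N k ((4:ℝ) ^ (a * k))) / k) +
      q * (Real.logb 4 (N l ((4:ℝ) ^ (b * l))) / l)) =
      (s γ * (p * l * k + q * k * l) - (p * l * Real.logb 4 (N k ((4:ℝ) ^ (a * k))) +
        q * k * Real.logb 4 (N l ((4:ℝ) ^ (b * l))))) / (k * l) := by
    field_simp
  rw [e2]
  exact div_nonneg h8 hkl.le

lemma s_mix {a b : ℝ} (ha : a ≤ 1 / 2) (hb : b ≤ 1 / 2) (p q : ℕ) (hpq : 1 ≤ p + q) :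
    p * s a + q * s b ≤ (p + q) * s ((p * a + q * b) / (p + q)) := by
  apply le_of_forall_pos_sub_le
  intro ε hε
  have hpq' : (0:ℝ) < p + q := by exact_mod_cast hpq
  set ε' : ℝ := ε / (p + q) with hε'
  have hε'0 : 0 < ε' := by positivity
  obtain ⟨_, ⟨k, hk, rfl⟩, h1⟩ := exists_lt_of_lt_csSup
    (sk_ne a) (b := s a - ε')
    (by show s a - ε' < s a; linarith)
  obtain ⟨_, ⟨l, hl, rfl⟩, h2⟩ := exists_lt_of_lt_csSup
    (sk_ne b) (b := s b - ε')
    (by show s b - ε' < s b; linarith)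
  have h3 := s_mix_aux ha hb p q hpq (Set.mem_Ici.1 hk) (Set.mem_Ici.1 hl)
  have h4 : (p:ℝ) * (s a - ε') ≤ p * sk a k := mul_le_mul_of_nonneg_left h1.le (Nat.cast_nonneg p)
  have h5 : (q:ℝ) * (s b - ε') ≤ q * sk b l := mul_le_mul_of_nonneg_left h2.le (Nat.cast_nonneg q)
  have h6 : ε = p * ε' + q * ε' := by rw [hε']; field_simp
  linarith

lemma s_concave {a α b : ℝ} (h1 : a ≤ α) (h2 : α ≤ b) (hab : a < b) (hb : b ≤ 1 / 2) :
    (b - α) * s a + (α - a) * s b ≤ (b - a) * s α := by
  have hba : 0 < b - a := by linarith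
  set t : ℝ := (b - α) / (b - a) with ht
  have ht0 : 0 ≤ t := div_nonneg (by linarith) hba.le
  have ht1 : t ≤ 1 := by rw [ht, div_le_one hba]; linarith
  have htb : t * (b - a) = b - α := by rw [ht]; field_simp
  have hab' : s b ≤ s a := s_anti hab.le hb
  have hab1 : s a - s b ≤ 1 := by linarith [s_le_one a, s_nonneg b]
  have key : s b + t * (s a - s b) ≤ s α := by
    apply le_of_forall_pos_sub_le
    intro ε hε
    obtain ⟨n, hn⟩ := exists_nat_gt (1 / ε)
    have hn0 : (0:ℝ) < n := lt_trans (by positivity) hn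
    have hnε : 1 / (n:ℝ) ≤ ε := by
      rw [div_le_iff₀ hn0]
      rw [div_lt_iff₀ hε] at hn
      linarith
    set p : ℕ := ⌊t * n⌋₊ with hp
    have hp1 : (p:ℝ) ≤ t * n := Nat.floor_le (by positivity)
    have hp2 : t * n < p + 1 := Nat.lt_floor_add_one _
    have hpn : p ≤ n := by
      have : (p:ℝ) ≤ n := hp1.trans (by nlinarith)
      exact_mod_cast this
    obtain ⟨q, hq⟩ := Nat.exists_eq_add_of_le hpn
    have hqr : (n:ℝ) = p + q := by exact_mod_cast hq
    have hn1 : 1 ≤ p + q := by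
      rw [← hq]
      exact_mod_cast hn0
    have h3 := s_mix (a := a) (b := b) (by linarith) hb p q hn1
    rw [← hqr] at h3
    have h4 : α ≤ (p * a + q * b) / n := by
      rw [le_div_iff₀ hn0]
      have : (p:ℝ) * (b - a) ≤ t * n * (b - a) := mul_le_mul_of_nonneg_right hp1 hba.le
      have e : t * n * (b - a) = (b - α) * n := by rw [← htb]; ring
      rw [e] at this
      rw [hqr] at this ⊢
      linarith
    have h5 : (p * a + q * b) / n ≤ b := by
      rw [div_le_iff₀ hn0, hqr]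
      have : (p:ℝ) * a ≤ p * b := mul_le_mul_of_nonneg_left hab.le (Nat.cast_nonneg p)
      linarith
    have h6 : s ((p * a + q * b) / n) ≤ s α := s_anti h4 (h5.trans hb)
    have h7 : (n:ℝ) * s ((p * a + q * b) / n) ≤ n * s α := mul_le_mul_of_nonneg_left h6 hn0.le
    -- conclusion
    have h8 : (t * n - 1) * (s a - s b) ≤ p * (s a - s b) :=
      mul_le_mul_of_nonneg_right (by linarith) (by linarith)
    have h9 : n * (s b + t * (s a - s b)) - 1 ≤ n * s α := by
      rw [hqr] at *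
      nlinarith
    have h10 : (s b + t * (s a - s b)) - 1 / n ≤ s α := by
      rw [← mul_le_mul_iff_right₀ hn0]
      have e : (n:ℝ) * (s b + t * (s a - s b) - 1 / n) = n * (s b + t * (s a - s b)) - 1 := by
        field_simp
      rw [e]
      exact h9
    linarith
  have h3 := mul_le_mul_of_nonneg_left key hba.le
  have e : (b - a) * (s b + t * (s a - s b)) = (b - α) * s a + (α - a) * s b := by
    have : (b - a) * (s b + t * (s a - s b)) = (b - a) * s b + (t * (b - a)) * (s a - s b) := by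
      ring
    rw [this, htb]
    ring
  linarith

/-- a supporting line -/
lemma s_support {α : ℝ} (h1 : α < 1 / 2) :
    ∃ q : ℝ, 0 ≤ q ∧ ∀ β : ℝ, 0 ≤ β → β ≤ 1 / 2 → s β + q * β ≤ s α + q * α := by
  set A : Set ℝ := (fun b => (s α - s b) / (b - α)) '' Set.Ioc α (1 / 2) with hA
  have hne : A.Nonempty := ⟨_, 1 / 2, ⟨h1, le_rfl⟩, rfl⟩
  have hlb : ∀ x ∈ A, 0 ≤ x := by
    rintro _ ⟨b, ⟨hb1, hb2⟩, rfl⟩
    apply div_nonneg
    · linarith [s_anti hb1.le hb2]
    · linarith
  have hbdd : BddBelow A := ⟨0, hlb⟩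
  refine ⟨sInf A, le_csInf hne hlb, ?_⟩
  intro β hβ0 hβ1
  rcases lt_trichotomy β α with h | h | h
  · have h3 : (s β - s α) / (α - β) ≤ sInf A := by
      apply le_csInf hne
      rintro _ ⟨b, ⟨hb1, hb2⟩, rfl⟩
      rw [div_le_div_iff₀ (by linarith) (by linarith)]
      have := s_concave h.le hb1.le (h.trans hb1) hb2
      nlinarith
    rw [div_le_iff₀ (by linarith)] at h3
    linarith
  · rw [h]
  · have h3 : sInf A ≤ (s α - s β) / (β - α) := csInf_le hbdd ⟨β, ⟨h, hβ1⟩, rfl⟩
    rw [le_div_iff₀ (by linarith)] at h3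
    linarith

/-- the pigeonhole bound of the pressure -/
lemma P_le_of {q M : ℝ} (hq : 0 < q) (h : ∀ β : ℝ, 0 ≤ β → β ≤ 1 / 2 → s β + q * β ≤ M) :
    P q ≤ M := by
  apply le_of_forall_pos_le_add
  intro ε hε
  obtain ⟨n, hn⟩ := exists_nat_gt (q / ε)
  have hn0 : (0:ℝ) < n := lt_of_le_of_lt (by positivity) hn
  set δ : ℝ := 1 / (2 * n) with hδ
  have hδ0 : 0 < δ := by positivity
  have hqδ : q * δ ≤ ε := by
    rw [div_lt_iff₀ hε] at hn
    rw [hδ, mul_one_div, div_le_iff₀ (by positivity)]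
    nlinarith
  -- the level estimate
  have hZ : ∀ k : ℕ, 1 ≤ k → Z k q ≤ (n + 1) * (4:ℝ) ^ (k * (M + q * δ)) := by
    intro k hk
    have hk' : (0:ℝ) < k := by exact_mod_cast hk
    have h1 : ∀ c ∈ range (4 ^ k), (B k c : ℝ) ^ q ≤ ∑ i ∈ range (n + 1),
        if (4:ℝ) ^ ((i * δ) * k) ≤ B k c then (4:ℝ) ^ ((i + 1) * δ * k * q) else 0 := by
      intro c _
      rcases Nat.eq_zero_or_pos (B k c) with hB | hB
      · rw [hB, Nat.cast_zero, Real.zero_rpow hq.ne']
        apply Finset.sum_nonneg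
        intro i _
        split_ifs
        · positivity
        · exact le_rfl
      · have hB' : (1:ℝ) ≤ B k c := by exact_mod_cast hB
        have hB0 : (0:ℝ) < B k c := by linarith
        set L : ℝ := Real.logb 4 (B k c) with hL
        have hL0 : 0 ≤ L := Real.logb_nonneg (by norm_num) hB'
        have hL1 : L ≤ k / 2 := by
          rw [hL, Real.logb_le_iff_le_rpow (by norm_num) hB0, ← two_pow_eq]
          exact_mod_cast B_le k c
        have hBL : (B k c : ℝ) = (4:ℝ) ^ L := by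
          rw [hL, Real.rpow_logb (by norm_num) (by norm_num) hB0]
        have hδk : 0 < δ * k := by positivity
        set i : ℕ := ⌊L / (δ * k)⌋₊ with hi
        have hi1 : (i:ℝ) * (δ * k) ≤ L := by
          have := Nat.floor_le (show 0 ≤ L / (δ * k) by positivity)
          rw [← hi, le_div_iff₀ hδk] at this
          exact this
        have hi2 : L ≤ (i + 1) * (δ * k) := by
          have := Nat.lt_floor_add_one (L / (δ * k))
          rw [← hi, div_lt_iff₀ hδk] at this
          exact this.le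
        have hin : i < n + 1 := by
          have h3 : (i:ℝ) * (δ * k) ≤ n * (δ * k) := by
            have e : (n:ℝ) * (δ * k) = k / 2 := by rw [hδ]; field_simp
            rw [e]
            exact hi1.trans hL1
          have h4 : (i:ℝ) ≤ n := le_of_mul_le_mul_right h3 hδk
          have h5 : i ≤ n := by exact_mod_cast h4
          omega
        have h6 : (4:ℝ) ^ ((i * δ) * k) ≤ B k c := by
          rw [hBL]
          apply Real.rpow_le_rpow_of_exponent_le (by norm_num)
          linarith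
        calc (B k c : ℝ) ^ q ≤ (if (4:ℝ) ^ ((i * δ) * k) ≤ B k c then
              (4:ℝ) ^ ((i + 1) * δ * k * q) else 0) := by
              rw [if_pos h6, hBL, ← Real.rpow_mul (by norm_num)]
              apply Real.rpow_le_rpow_of_exponent_le (by norm_num)
              nlinarith
          _ ≤ _ := Finset.single_le_sum (f := fun i : ℕ => if (4:ℝ) ^ ((i * δ) * k) ≤ B k c then
              (4:ℝ) ^ ((i + 1) * δ * k * q) else 0) (fun j _ => by
                split_ifs
                · positivity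
                · exact le_rfl) (Finset.mem_range.2 hin)
    calc Z k q ≤ ∑ c ∈ range (4 ^ k), ∑ i ∈ range (n + 1),
          if (4:ℝ) ^ ((i * δ) * k) ≤ B k c then (4:ℝ) ^ ((i + 1) * δ * k * q) else 0 :=
          Finset.sum_le_sum h1
      _ = ∑ i ∈ range (n + 1), (N k ((4:ℝ) ^ ((i * δ) * k)) : ℝ) *
            (4:ℝ) ^ ((i + 1) * δ * k * q) := by
          rw [Finset.sum_comm]
          apply Finset.sum_congr rfl
          intro i _
          classical
          unfold N
          rw [← Finset.sum_filter, Finset.sum_const, nsmul_eq_mul]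
      _ ≤ ∑ i ∈ range (n + 1), (4:ℝ) ^ (k * (M + q * δ)) := by
          apply Finset.sum_le_sum
          intro i hi
          have hi' : i ≤ n := by rw [Finset.mem_range] at hi; omega
          have hi'' : (i:ℝ) ≤ n := by exact_mod_cast hi'
          have h3 : (i:ℝ) * δ ≤ 1 / 2 := by
            have e : (n:ℝ) * δ = 1 / 2 := by rw [hδ]; field_simp
            rw [← e]
            exact mul_le_mul_of_nonneg_right hi'' hδ0.le
          have h4 := h (i * δ) (by positivity) h3
          calc (N k ((4:ℝ) ^ ((i * δ) * k)) : ℝ) * (4:ℝ) ^ ((i + 1) * δ * k * q)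
              ≤ (4:ℝ) ^ (k * s (i * δ)) * (4:ℝ) ^ ((i + 1) * δ * k * q) :=
                mul_le_mul_of_nonneg_right (N_le_s _ hk) (by positivity)
            _ = (4:ℝ) ^ (k * s (i * δ) + (i + 1) * δ * k * q) := by
                rw [Real.rpow_add (by norm_num)]
            _ ≤ _ := by
                apply Real.rpow_le_rpow_of_exponent_le (by norm_num)
                have := mul_le_mul_of_nonneg_left h4 hk'.le
                nlinarith
      _ = _ := by rw [Finset.sum_const, Finset.card_range]; simp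
  have h2 : P q ≤ M + q * δ := by
    have hlim : Tendsto (fun k : ℕ => Real.logb 4 (n + 1) * (1 / (k:ℝ)) + (M + q * δ)) atTop
        (𝓝 (Real.logb 4 (n + 1) * 0 + (M + q * δ))) :=
      (tendsto_one_div_atTop_nhds_zero_nat.const_mul _).add tendsto_const_nhds
    rw [mul_zero, zero_add] at hlim
    apply le_of_tendsto_of_tendsto (P_tendsto hq) hlim
    filter_upwards [eventually_ge_atTop 1] with k hk
    have hk' : (0:ℝ) < k := by exact_mod_cast hk
    rw [div_le_iff₀ hk']
    have h3 : Real.logb 4 (Z k q) ≤ Real.logb 4 ((n + 1) * (4:ℝ) ^ (k * (M + q * δ))) :=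
      Real.logb_le_logb_of_le (by norm_num) (Z_pos k hq) (hZ k hk)
    rw [Real.logb_mul (by positivity) (by positivity), logb_pow4] at h3
    have e : (Real.logb 4 (n + 1) * (1 / (k:ℝ)) + (M + q * δ)) * k =
        Real.logb 4 (n + 1) + k * (M + q * δ) := by field_simp
    rw [e]
    exact h3
  linarith

/-- many different values -/
lemma one_le_s_zero : 1 ≤ s 0 := by
  -- for every `lam < 2`
  have key : ∀ lam : ℝ, 0 < lam → lam < 2 → Real.logb 4 (lam ^ 2) ≤ s 0 := by
    intro lam hl0 hl2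
    obtain ⟨c, hc, n0, h⟩ := W_growth_zero hl0 hl2
    have hcount : ∀ k : ℕ, 1 ≤ k → W 0 (2 * k - 1) 1 ≤ (2 * k) * N k ((4:ℝ) ^ (0 * (k:ℝ))) := by
      intro k hk
      classical
      obtain ⟨n, hn⟩ : ∃ n, 2 * k = n + 1 := ⟨2 * k - 1, by omega⟩
      have hn' : 2 * k - 1 = n := by omega
      rw [hn']
      rw [← sum_D n 1 (4 ^ k) (by
        have : (4:ℕ) ^ k = 2 ^ (n + 1) := by rw [← hn, pow_mul]; norm_num
        rw [this, pow_succ]; omega)]
      calc ∑ R ∈ range (4 ^ k), D 0 n 1 R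
          ≤ ∑ R ∈ range (4 ^ k), if (4:ℝ) ^ (0 * (k:ℝ)) ≤ B k R then (2 * k : ℝ) else 0 := by
            apply Finset.sum_le_sum
            intro R _
            rw [zero_mul, Real.rpow_zero]
            split_ifs with h3
            · have h4 := D_zero_le' n 0 R
              have h5 : ((2 * k : ℕ) : ℝ) = n + 1 := by exact_mod_cast hn
              push_cast at h5
              rw [h5]
              exact h4
            · have h4 : B k R = 0 := by
                have : (B k R : ℝ) < 1 := not_le.1 h3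
                have : B k R < 1 := by exact_mod_cast this
                omega
              have h5 := B_eq_D k R
              rw [h4, hn] at h5
              simp only [D] at h5
              have h6 := D_mono (x := 0) (y := 2) le_rfl (by norm_num) n 1 R
              norm_num at h5
              rw [h5] at h6
              exact h6
        _ = _ := by
            unfold N
            rw [← Finset.sum_filter, Finset.sum_const, nsmul_eq_mul, mul_comm]
    -- Fekete is not needed: bound `s 0` by the limit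
    have hlim : Tendsto (fun k : ℕ => (k:ℝ) * s 0 / k) atTop (𝓝 (s 0)) := by
      apply tendsto_const_nhds.congr'
      filter_upwards [eventually_ge_atTop 1] with k hk
      have hk' : (0:ℝ) < k := by exact_mod_cast hk
      field_simp
    apply growth_le (c := |Real.logb 4 (c / (2 * lam))| + 1 / Real.log 4) (k0 := n0 + 1) hlim
    intro k hk
    have hk1 : 1 ≤ k := by omega
    have hk' : (0:ℝ) < k := by exact_mod_cast hk1
    have h1 := h (2 * k - 1) (by omega) (by omega)
    have h2 := h1.trans (hcount k hk1)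
    have h3 := N_le_s 0 hk1
    have h4 : c * lam ^ (2 * k - 1) ≤ (2 * k) * (4:ℝ) ^ (k * s 0) :=
      h2.trans (mul_le_mul_of_nonneg_left h3 (by positivity))
    have h5 : c / (2 * lam) * (lam ^ 2) ^ k ≤ k * (4:ℝ) ^ (k * s 0) := by
      have e : lam ^ (2 * k - 1) * lam = (lam ^ 2) ^ k := by
        rw [← pow_succ, ← pow_mul]; congr 1; omega
      rw [← e]
      have : c / (2 * lam) * (lam ^ (2 * k - 1) * lam) = (c * lam ^ (2 * k - 1)) / 2 := by
        field_simp
      rw [this]
      linarith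
    have h6 : Real.logb 4 (c / (2 * lam) * (lam ^ 2) ^ k) ≤ Real.logb 4 (k * (4:ℝ) ^ (k * s 0)) :=
      Real.logb_le_logb_of_le (by norm_num) (by positivity) h5
    rw [Real.logb_mul (by positivity) (by positivity), Real.logb_mul (by positivity)
      (by positivity), logb_pow4, Real.logb_pow] at h6
    have h7 := neg_abs_le (Real.logb 4 (c / (2 * lam)))
    have h8 : Real.logb 4 (k:ℝ) = 1 / Real.log 4 * Real.log k := by
      unfold Real.logb; field_simp
    have h9 : 0 ≤ |Real.logb 4 (c / (2 * lam))| * Real.log k :=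
      mul_nonneg (abs_nonneg _) (Real.log_natCast_nonneg k)
    have h10 : 0 < 1 / Real.log 4 := by
      have : 0 < Real.log 4 := Real.log_pos (by norm_num)
      positivity
    rw [h8] at h6
    nlinarith
  have hcont : Tendsto (fun a : ℝ => Real.logb 4 (a ^ 2)) (𝓝[<] 2) (𝓝 (Real.logb 4 (2 ^ 2))) := by
    apply Tendsto.mono_left _ nhdsWithin_le_nhds
    have hc : ContinuousAt (fun a : ℝ => Real.logb 4 (a ^ 2)) 2 := by
      unfold Real.logb
      apply ContinuousAt.div_const
      apply ContinuousAt.log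
      · exact continuousAt_id.pow 2
      · norm_num
    exact hc
  have e : Real.logb 4 ((2:ℝ) ^ 2) = 1 := by
    rw [show ((2:ℝ) ^ 2) = 4 by norm_num]
    exact Real.logb_self_eq_one (by norm_num)
  rw [e] at hcont
  apply le_of_tendsto hcont
  have h3 : ∀ᶠ a in 𝓝[<] (2:ℝ), 0 < a := by
    apply Filter.Eventually.filter_mono nhdsWithin_le_nhds
    exact eventually_gt_nhds (by norm_num)
  filter_upwards [h3, self_mem_nhdsWithin] with a ha1 ha
  exact key a ha1 ha

/-- easy half of the duality -/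
lemma s_add_le_P {α q : ℝ} (hα : α ≤ 1 / 2) (hq : 0 < q) : s α + q * α ≤ P q := by
  have h : s α ≤ P q - q * α := by
    apply csSup_le (sk_ne _)
    rintro _ ⟨k, hk, rfl⟩
    rw [Set.mem_Ici] at hk
    have hk' : (0:ℝ) < k := by exact_mod_cast hk
    have hN : (0:ℝ) < N k ((4:ℝ) ^ (α * k)) := by exact_mod_cast N_thr_pos hα k
    have h1 : (N k ((4:ℝ) ^ (α * k)) : ℝ) * (4:ℝ) ^ (α * k * q) ≤ Z k q := by
      classical
      unfold N Z
      rw [← nsmul_eq_mul, ← Finset.sum_const, Finset.sum_filter]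
      apply Finset.sum_le_sum
      intro c _
      split_ifs with h
      · rw [Real.rpow_mul (by norm_num)]
        exact Real.rpow_le_rpow (by positivity) h hq.le
      · positivity
    have h2 : Real.logb 4 ((N k ((4:ℝ) ^ (α * k)) : ℝ) * (4:ℝ) ^ (α * k * q)) ≤
        Real.logb 4 (Z k q) := Real.logb_le_logb_of_le (by norm_num) (by positivity) h1
    rw [Real.logb_mul hN.ne' (by positivity), logb_pow4] at h2
    have h3 := le_P hq hk
    rw [div_le_iff₀ hk'] at h3
    unfold sk
    rw [div_le_iff₀ hk']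
    linarith
  linarith

lemma P_one_le : P 1 ≤ 1 := by
  have h := P_le (w := 2) (q := 1) (by norm_num) (by norm_num) le_rfl le_rfl
  norm_num at h
  exact h

/-- the other half of the duality -/
lemma exists_P_le {α ε : ℝ} (h0 : 0 ≤ α) (h1 : α ≤ 1 / 2) (hε : 0 < ε) :
    ∃ q : ℝ, 1 ≤ q ∧ P q - q * α ≤ s α + ε := by
  rcases h0.eq_or_lt with h | h
  · refine ⟨1, le_rfl, ?_⟩
    have h2 := P_one_le
    have h3 := one_le_s_zero
    rw [← h]
    linarith
  rcases h1.eq_or_lt with h' | h'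
  · -- the end point
    -- choose `w = 3/2`
    obtain ⟨n, hn⟩ : ∃ n : ℕ, Real.logb 4 (1 / (1 - (3 / 4 : ℝ) ^ (n:ℝ))) ≤ ε ∧ 1 ≤ n := by
      have hcont : Tendsto (fun n : ℕ => Real.logb 4 (1 / (1 - (3 / 4 : ℝ) ^ n))) atTop
          (𝓝 (Real.logb 4 (1 / (1 - 0)))) := by
        have h3 : Tendsto (fun n : ℕ => (3 / 4 : ℝ) ^ n) atTop (𝓝 0) :=
          tendsto_pow_atTop_nhds_zero_of_lt_one (by norm_num) (by norm_num)
        have h4 : Tendsto (fun n : ℕ => 1 / (1 - (3 / 4 : ℝ) ^ n)) atTop (𝓝 (1 / (1 - 0))) :=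
          tendsto_const_nhds.div (tendsto_const_nhds.sub h3) (by norm_num)
        unfold Real.logb
        exact (h4.log (by norm_num)).div_const _
      norm_num at hcont
      have h5 := (hcont.eventually (ge_mem_nhds hε)).and (eventually_ge_atTop 1)
      obtain ⟨n, hn1, hn2⟩ := h5.exists
      refine ⟨n, ?_, hn2⟩
      rw [Real.rpow_natCast]
      simpa [Real.logb_inv] using hn1
    obtain ⟨hn1, hn2⟩ := hn
    have hn2' : (1:ℝ) ≤ n := by exact_mod_cast hn2
    refine ⟨n, hn2', ?_⟩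
    have h6 := P_le (w := 3 / 2) (q := n) (by norm_num) (by norm_num) (by norm_num) hn2'
    have h7 := s_nonneg α
    rw [h'] at h7 ⊢
    have h34 : (3 / 4 : ℝ) ^ (n:ℝ) < 1 :=
      Real.rpow_lt_one (by norm_num) (by norm_num) (by linarith)
    have h8 : (3 / 2 : ℝ) ^ ((n:ℝ) - 1) / 2 ^ (n:ℝ) ≤ (3 / 4 : ℝ) ^ (n:ℝ) := by
      have e : (3 / 4 : ℝ) ^ (n:ℝ) = (3 / 2 : ℝ) ^ (n:ℝ) / 2 ^ (n:ℝ) := by
        rw [← Real.div_rpow (by norm_num) (by norm_num)]; norm_num
      rw [e]
      apply div_le_div_of_nonneg_right _ (by positivity)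
      exact Real.rpow_le_rpow_of_exponent_le (by norm_num) (by linarith)
    have h9 : Real.logb 4 ((2:ℝ) ^ (n:ℝ) / (1 - (3 / 2 : ℝ) ^ ((n:ℝ) - 1) / 2 ^ (n:ℝ))) ≤
        n / 2 + ε := by
      calc Real.logb 4 ((2:ℝ) ^ (n:ℝ) / (1 - (3 / 2 : ℝ) ^ ((n:ℝ) - 1) / 2 ^ (n:ℝ)))
          ≤ Real.logb 4 ((2:ℝ) ^ (n:ℝ) * (1 / (1 - (3 / 4 : ℝ) ^ (n:ℝ)))) := by
            apply Real.logb_le_logb_of_le (by norm_num)
            · apply div_pos (by positivity); linarith
            · rw [div_eq_mul_one_div]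
              apply mul_le_mul_of_nonneg_left _ (by positivity)
              apply one_div_le_one_div_of_le
              · linarith
              · linarith
        _ = n / 2 + Real.logb 4 (1 / (1 - (3 / 4 : ℝ) ^ (n:ℝ))) := by
            rw [Real.logb_mul (by positivity)]
            · rw [Real.rpow_natCast, two_pow_eq, logb_pow4]
            · have : 0 < 1 - (3 / 4 : ℝ) ^ (n:ℝ) := by linarith
              positivity
        _ ≤ _ := by linarith
    linarith
  · obtain ⟨q, hq0, hq⟩ := s_support h'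
    rcases le_or_gt 1 q with hq1 | hq1
    · refine ⟨q, hq1, ?_⟩
      have := P_le_of (by linarith) hq
      linarith
    · refine ⟨1, le_rfl, ?_⟩
      have h2 := hq 0 le_rfl (by norm_num)
      have h3 := one_le_s_zero
      have h4 := P_one_le
      nlinarith

/-- **Duality.** -/
theorem s_eq {α : ℝ} (h0 : 0 ≤ α) (h1 : α ≤ 1 / 2) :
    s α = sInf ((fun q : ℝ => P q - q * α) '' Set.Ici 1) := by
  have hne : ((fun q : ℝ => P q - q * α) '' Set.Ici 1).Nonempty :=
    ⟨_, 1, Set.mem_Ici.2 le_rfl, rfl⟩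
  apply le_antisymm
  · apply le_csInf hne
    rintro _ ⟨q, hq, rfl⟩
    rw [Set.mem_Ici] at hq
    have := s_add_le_P h1 (show 0 < q by linarith)
    simp only
    linarith
  · apply le_of_forall_pos_le_add
    intro ε hε
    obtain ⟨q, hq, h⟩ := exists_P_le h0 h1 hε
    refine le_trans (csInf_le ?_ ⟨q, hq, rfl⟩) h
    refine ⟨s α, ?_⟩
    rintro _ ⟨q, hq, rfl⟩
    rw [Set.mem_Ici] at hq
    have := s_add_le_P h1 (show 0 < q by linarith)
    simp only
    linarith

/-- the counting exponent is a limit -/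
theorem sk_tendsto {α : ℝ} (h1 : α ≤ 1 / 2) : Tendsto (sk α) atTop (𝓝 (s α)) := by
  have hsub : Subadditive fun k : ℕ => -Real.logb 4 (N k ((4:ℝ) ^ (α * k))) := by
    intro m n
    have h := N_mul m n (t := (4:ℝ) ^ (α * m)) (t' := (4:ℝ) ^ (α * n)) (by positivity)
    rw [← Real.rpow_add (by norm_num)] at h
    have e : α * m + α * n = α * ((m + n : ℕ) : ℝ) := by push_cast; ring
    rw [e] at h
    have hm : (0:ℝ) < N m ((4:ℝ) ^ (α * m)) := by exact_mod_cast N_thr_pos h1 m
    have hn : (0:ℝ) < N n ((4:ℝ) ^ (α * n)) := by exact_mod_cast N_thr_pos h1 n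
    have h2 : Real.logb 4 ((N m ((4:ℝ) ^ (α * m)) : ℝ) * N n ((4:ℝ) ^ (α * n))) ≤
        Real.logb 4 (N (m + n) ((4:ℝ) ^ (α * ((m + n : ℕ) : ℝ)))) := by
      apply Real.logb_le_logb_of_le (by norm_num) (by positivity)
      exact_mod_cast h
    rw [Real.logb_mul hm.ne' hn.ne'] at h2
    simp only
    linarith
  have hbdd : BddBelow (Set.range fun n : ℕ => (-Real.logb 4 (N n ((4:ℝ) ^ (α * n)))) / (n:ℝ)) := by
    refine ⟨-1, ?_⟩
    rintro _ ⟨n, rfl⟩
    rcases Nat.eq_zero_or_pos n with hn | hn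
    · subst hn
      simp
    · have := sk_le_one α hn
      unfold sk at this
      simp only
      rw [neg_div]
      linarith
  have h2 : Tendsto (sk α) atTop (𝓝 (-hsub.lim)) := by
    have h3 := (hsub.tendsto_lim hbdd).neg
    refine h3.congr fun n => ?_
    unfold sk
    ring
  have h3 : -hsub.lim = s α := by
    apply le_antisymm
    · apply le_of_tendsto h2
      filter_upwards [eventually_ge_atTop 1] with k hk
      exact sk_le_s α hk
    · apply csSup_le (sk_ne _)
      rintro _ ⟨k, hk, rfl⟩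
      rw [Set.mem_Ici] at hk
      have h4 := hsub.lim_le_div hbdd (n := k) (by omega)
      unfold sk
      rw [neg_div] at h4
      linarith
  rw [h3] at h2
  exact h2

end Pool.Agent.K1H33.Tk
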