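import Pool.Agent.K1H33.Tk.Pos

/-!
# Growth of the weighted numbers of paths; comparison of weights
-/

set_option autoImplicit false

namespace Pool.Agent.K1H33.Tk

open Finset Filter Topology

/-! ### Hölder and superadditivity -/

/-- the two-term Hölder inequality -/
lemma holder_two {q : ℝ} (hq : 1 ≤ q) {a1 a2 b1 b2 c1 c2 : ℝ} (ha1 : 0 ≤ a1) (ha2 : 0 ≤ a2)
    (hb1 : 0 ≤ b1) (hb2 : 0 ≤ b2) (hc1 : 0 ≤ c1) (hc2 : 0 ≤ c2)
    (h1 : a1 ^ q ≤ b1 ^ (q - 1) * c1) (h2 : a2 ^ q ≤ b2 ^ (q - 1) * c2) :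
    (a1 + a2) ^ q ≤ (b1 + b2) ^ (q - 1) * (c1 + c2) := by
  rcases hq.eq_or_lt with rfl | hq
  · simp only [Real.rpow_one, sub_self, Real.rpow_zero, one_mul] at *
    linarith
  have hq0 : 0 < q := by linarith
  set p : ℝ := q / (q - 1) with hp
  have hq1 : 0 < q - 1 := by linarith
  have hp0 : 0 < p := by positivity
  have hpq : p.HolderConjugate q := by
    rw [Real.holderConjugate_iff]
    refine ⟨?_, ?_⟩
    · rw [hp, lt_div_iff₀ hq1]; linarith
    · rw [hp]; field_simp; ring
  have hr : ∀ {a b c : ℝ}, 0 ≤ a → 0 ≤ b → 0 ≤ c → a ^ q ≤ b ^ (q - 1) * c →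
      a ≤ b ^ (1 / p) * c ^ (1 / q) := by
    intro a b c ha hb hc h
    have h3 : (a ^ q) ^ (1 / q) ≤ (b ^ (q - 1) * c) ^ (1 / q) :=
      Real.rpow_le_rpow (by positivity) h (by positivity)
    rw [← Real.rpow_mul ha, mul_one_div_cancel hq0.ne', Real.rpow_one,
      Real.mul_rpow (by positivity) hc, ← Real.rpow_mul hb] at h3
    have e : (q - 1) * (1 / q) = 1 / p := by rw [hp]; field_simp
    rwa [e] at h3
  have k1 := hr ha1 hb1 hc1 h1
  have k2 := hr ha2 hb2 hc2 h2
  have k3 := Real.inner_le_Lp_mul_Lq_of_nonneg (s := (Finset.univ : Finset (Fin 2))) hpq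
    (f := ![b1 ^ (1 / p), b2 ^ (1 / p)]) (g := ![c1 ^ (1 / q), c2 ^ (1 / q)])
    (by intro i _; fin_cases i <;> simp <;> positivity)
    (by intro i _; fin_cases i <;> simp <;> positivity)
  simp only [Fin.sum_univ_two, Matrix.cons_val_zero, Matrix.cons_val_one] at k3
  rw [← Real.rpow_mul hb1, ← Real.rpow_mul hb2, ← Real.rpow_mul hc1, ← Real.rpow_mul hc2,
    one_div_mul_cancel hp0.ne', one_div_mul_cancel hq0.ne'] at k3
  simp only [Real.rpow_one] at k3
  have k4 : a1 + a2 ≤ (b1 + b2) ^ (1 / p) * (c1 + c2) ^ (1 / q) := by linarith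
  have k5 := Real.rpow_le_rpow (by positivity) k4 hq0.le
  rw [Real.mul_rpow (by positivity) (by positivity), ← Real.rpow_mul (by positivity),
    ← Real.rpow_mul (by positivity), one_div_mul_cancel hq0.ne', Real.rpow_one] at k5
  have e : 1 / p * q = q - 1 := by rw [hp]; field_simp
  rwa [e] at k5

lemma D_holder {q x y z : ℝ} (hq : 1 ≤ q) (hx : 0 ≤ x) (hy : 0 ≤ y) (hz : 0 ≤ z)
    (h : x ^ q = y ^ (q - 1) * z) :
    ∀ n m R : ℕ, D x n m R ^ q ≤ D y n m R ^ (q - 1) * D z n m R := by
  have hq0 : 0 < q := by linarith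
  intro n
  induction n with
  | zero =>
    intro m R
    simp only [D]
    split_ifs
    · simp
    · rw [Real.zero_rpow hq0.ne']; simp
  | succ n ih =>
    intro m R
    rcases m with _ | m
    · simp only [D]
      rw [Real.mul_rpow hx (D_nonneg hx _ _ _), Real.mul_rpow hy (D_nonneg hy _ _ _), h]
      have h1 := mul_le_mul_of_nonneg_left (ih 1 R)
        (show 0 ≤ y ^ (q - 1) * z from mul_nonneg (Real.rpow_nonneg hy _) hz)
      linarith
    · simp only [D]
      apply holder_two hq (D_nonneg hx _ _ _) _ (D_nonneg hy _ _ _) _ (D_nonneg hz _ _ _) _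
        (ih _ _) _
      · split_ifs
        · exact D_nonneg hx _ _ _
        · exact le_rfl
      · split_ifs
        · exact D_nonneg hy _ _ _
        · exact le_rfl
      · split_ifs
        · exact D_nonneg hz _ _ _
        · exact le_rfl
      · split_ifs
        · exact ih _ _
        · rw [Real.zero_rpow hq0.ne']; simp

lemma D_superadd {q x : ℝ} (hq : 1 ≤ q) (hx : 0 ≤ x) :
    ∀ n m R : ℕ, D (x ^ q) n m R ≤ D x n m R ^ q := by
  have hq0 : 0 < q := by linarith
  intro n
  induction n with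
  | zero =>
    intro m R
    simp only [D]
    split_ifs
    · simp
    · rw [Real.zero_rpow hq0.ne']
  | succ n ih =>
    intro m R
    rcases m with _ | m
    · simp only [D]
      rw [Real.mul_rpow hx (D_nonneg hx _ _ _)]
      exact mul_le_mul_of_nonneg_left (ih 1 R) (Real.rpow_nonneg hx _)
    · simp only [D]
      split_ifs with h
      · refine (add_le_add (ih _ _) (ih _ _)).trans ?_
        exact Real.add_rpow_le_rpow_add (D_nonneg hx _ _ _) (D_nonneg hx _ _ _) hq
      · rw [add_zero, add_zero]; exact ih _ _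

lemma D_mono {x y : ℝ} (hx : 0 ≤ x) (hxy : x ≤ y) :
    ∀ n m R : ℕ, D x n m R ≤ D y n m R := by
  intro n
  induction n with
  | zero => intro m R; simp only [D]; exact le_rfl
  | succ n ih =>
    intro m R
    rcases m with _ | m
    · simp only [D]
      exact mul_le_mul hxy (ih _ _) (D_nonneg hx _ _ _) (hx.trans hxy)
    · simp only [D]
      split_ifs with h
      · exact add_le_add (ih _ _) (ih _ _)
      · rw [add_zero, add_zero]; exact ih _ _

/-! ### Upper bound for `W` -/

lemma W_le {Q θ : ℝ} (hQ : 1 ≤ Q) (hθ : 0 < θ) (hθQ : (Q - 1) * θ ^ 2 = 1) :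
    ∀ n m : ℕ, W Q n m ≤ (Q * θ) ^ n * θ ^ m := by
  have hQ0 : 0 < Q := by linarith
  intro n
  induction n with
  | zero =>
    intro m
    simp only [W, pow_zero, one_mul]
    split_ifs with h
    · rw [h]; simp
    · positivity
  | succ n ih =>
    intro m
    rcases m with _ | m
    · simp only [W, pow_zero, mul_one]
      calc Q * W Q n 1 ≤ Q * ((Q * θ) ^ n * θ ^ 1) := mul_le_mul_of_nonneg_left (ih 1) hQ0.le
        _ = (Q * θ) ^ (n + 1) := by ring
    · simp only [W]
      calc W Q n (m + 2) + W Q n m ≤ (Q * θ) ^ n * θ ^ (m + 2) + (Q * θ) ^ n * θ ^ m :=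
            add_le_add (ih _) (ih _)
        _ = (Q * θ) ^ n * θ ^ m * (θ ^ 2 + 1) := by ring
        _ = (Q * θ) ^ n * θ ^ m * (Q * θ ^ 2) := by
            rw [show θ ^ 2 + 1 = Q * θ ^ 2 by linarith]
        _ = (Q * θ) ^ (n + 1) * θ ^ (m + 1) := by ring

/-! ### Lower bounds for `W` -/

lemma W_ge_one {x : ℝ} (hx : 0 ≤ x) : ∀ n m : ℕ, m + 1 ≤ n → (n + (m + 1)) % 2 = 0 →
    1 ≤ W x n (m + 1) := by
  intro n
  induction n with
  | zero => intro m h; omega
  | succ n ih =>
    intro m h h2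
    simp only [W]
    rcases m with _ | m
    · have h0 := W_nonneg hx n 0
      rcases n with _ | n
      · simp [W]
      · have := ih 1 (by omega) (by omega)
        linarith
    · have h0 := W_nonneg hx n (m + 1 + 2)
      have := ih m (by omega) (by omega)
      linarith

lemma W_ge_one' {x : ℝ} (hx : 1 ≤ x) (n : ℕ) (h2 : n % 2 = 0) :
    1 ≤ W x n 0 := by
  rcases n with _ | n
  · simp [W]
  · simp only [W]
    have := W_ge_one (show 0 ≤ x by linarith) n 0 (by omega) (by omega)
    nlinarith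

/-- the growth lemma -/
lemma W_growth {x lam : ℝ} (hx : 0 ≤ x) (hl : 0 ≤ lam) (u : ℕ → ℝ)
    (h0 : lam * u 0 ≤ x * u 1) (h1 : ∀ m, lam * u (m + 1) ≤ u (m + 2) + u m)
    (n0 : ℕ) (c : ℝ) (hc : 0 ≤ c) (hbase : ∀ m, (n0 + m) % 2 = 0 → c * u m ≤ W x n0 m) :
    ∀ n m : ℕ, (n0 + n + m) % 2 = 0 → c * lam ^ n * u m ≤ W x (n0 + n) m := by
  intro n
  induction n with
  | zero => intro m hm; simpa using hbase m hm
  | succ n ih =>
    intro m hm
    rcases m with _ | m
    · have h2 := ih 1 (by omega)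
      show _ ≤ W x (n0 + n + 1) 0
      simp only [W]
      calc c * lam ^ (n + 1) * u 0 = c * lam ^ n * (lam * u 0) := by ring
        _ ≤ c * lam ^ n * (x * u 1) := mul_le_mul_of_nonneg_left h0 (by positivity)
        _ = x * (c * lam ^ n * u 1) := by ring
        _ ≤ x * W x (n0 + n) 1 := mul_le_mul_of_nonneg_left h2 hx
    · have h2 := ih (m + 2) (by omega)
      have h3 := ih m (by omega)
      show _ ≤ W x (n0 + n + 1) (m + 1)
      simp only [W]
      calc c * lam ^ (n + 1) * u (m + 1) = c * lam ^ n * (lam * u (m + 1)) := by ring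
        _ ≤ c * lam ^ n * (u (m + 2) + u m) := mul_le_mul_of_nonneg_left (h1 m) (by positivity)
        _ = c * lam ^ n * u (m + 2) + c * lam ^ n * u m := by ring
        _ ≤ _ := add_le_add h2 h3

/-- Growth of `W` for `x > 2`. -/
lemma W_growth_big {x a : ℝ} (hx : 2 < x) (ha0 : 0 < a) (ha1 : a < 1) (ha : 1 < (x - 1) * a ^ 2) :
    ∃ c : ℝ, 0 < c ∧ ∃ n0 : ℕ, ∀ n, n0 ≤ n → n % 2 = 0 → c * (a + 1 / a) ^ n ≤ W x n 0 := by
  set lam : ℝ := a + 1 / a with hlam
  have hlam0 : 0 < lam := by positivity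
  have hlam2 : 2 < lam := by
    have e : lam - 2 = (1 - a) ^ 2 / a := by rw [hlam]; field_simp; ring
    have : 0 < (1 - a) ^ 2 / a := by
      have : 0 < 1 - a := by linarith
      positivity
    linarith
  have hgap : 0 < x * a - lam := by
    have e : x * a - lam = ((x - 1) * a ^ 2 - 1) / a := by rw [hlam]; field_simp; ring
    rw [e]
    have : 0 < (x - 1) * a ^ 2 - 1 := by linarith
    positivity
  obtain ⟨δ, hδ0, hδ1, hδ2⟩ : ∃ δ : ℝ, 0 < δ ∧ δ < 1 ∧ δ * x ≤ x * a - lam := by
    refine ⟨min (1 / 2) ((x * a - lam) / x), ?_, ?_, ?_⟩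
    · apply lt_min (by norm_num)
      have : 0 < x := by linarith
      positivity
    · exact (min_le_left _ _).trans_lt (by norm_num)
    · have hx0 : 0 < x := by linarith
      calc min (1 / 2) ((x * a - lam) / x) * x ≤ ((x * a - lam) / x) * x :=
            mul_le_mul_of_nonneg_right (min_le_right _ _) hx0.le
        _ = x * a - lam := by field_simp
  set u : ℕ → ℝ := fun m => max (a ^ m - δ) 0 with hu
  have hu0 : ∀ m, 0 ≤ u m := fun m => le_max_right _ _
  have hu1 : ∀ m, a ^ m - δ ≤ u m := fun m => le_max_left _ _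
  have hule : ∀ m, u m ≤ 1 := by
    intro m
    apply max_le _ (by norm_num)
    have : a ^ m ≤ 1 := pow_le_one₀ ha0.le ha1.le
    linarith
  -- finite support
  obtain ⟨H, hH⟩ : ∃ H : ℕ, a ^ H < δ := exists_pow_lt_of_lt_one hδ0 ha1
  have huz : ∀ m, H ≤ m → u m = 0 := by
    intro m hm
    simp only [hu]
    apply max_eq_right
    have : a ^ m ≤ a ^ H := pow_le_pow_of_le_one ha0.le ha1.le hm
    linarith
  have key := W_growth (x := x) (lam := lam) (by linarith) hlam0.le u ?_ ?_ (2 * H) 1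
    (by norm_num) ?_
  · refine ⟨(1 - δ) / lam ^ (2 * H), ?_, 2 * H, ?_⟩
    · have : 0 < 1 - δ := by linarith
      positivity
    · intro n hn hn2
      obtain ⟨j, rfl⟩ := Nat.exists_eq_add_of_le hn
      have h2 := key j 0 (by omega)
      have h3 : 1 - δ ≤ u 0 := by have := hu1 0; simpa using this
      refine le_trans ?_ h2
      rw [pow_add]
      have : 0 < lam ^ (2 * H) := by positivity
      calc (1 - δ) / lam ^ (2 * H) * (lam ^ (2 * H) * lam ^ j) = lam ^ j * (1 - δ) := by
            field_simp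
        _ ≤ lam ^ j * u 0 := mul_le_mul_of_nonneg_left h3 (by positivity)
        _ = _ := by ring
  · -- at zero
    have h3 : u 0 = 1 - δ := by
      simp only [hu, pow_zero]
      exact max_eq_left (by linarith)
    have h4 := hu1 1
    rw [pow_one] at h4
    rw [h3]
    have h5 : x * (a - δ) ≤ x * u 1 := mul_le_mul_of_nonneg_left h4 (by linarith)
    have h6 : 0 ≤ lam * δ := by positivity
    nlinarith
  · intro m
    by_cases hm : a ^ (m + 1) - δ ≤ 0
    · have h3 : u (m + 1) = 0 := max_eq_right hm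
      rw [h3, mul_zero]
      exact add_nonneg (hu0 _) (hu0 _)
    · have h3 : u (m + 1) = a ^ (m + 1) - δ := max_eq_left (by linarith [not_le.1 hm])
      rw [h3]
      have h4 := hu1 (m + 2)
      have h5 := hu1 m
      have e : lam * a ^ (m + 1) = a ^ (m + 2) + a ^ m := by
        rw [hlam]; field_simp; ring
      nlinarith
  · intro m hm
    rw [one_mul]
    rcases le_or_gt H m with h | h
    · rw [huz m h]; exact W_nonneg (by linarith) _ _
    · refine (hule m).trans ?_
      rcases m with _ | m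
      · exact W_ge_one' (by linarith) _ (by omega)
      · exact W_ge_one (by linarith) _ _ (by omega) (by omega)

/-- Growth of the number of primitive paths. -/
lemma W_growth_zero {lam : ℝ} (hl0 : 0 < lam) (hl : lam < 2) :
    ∃ c : ℝ, 0 < c ∧ ∃ n0 : ℕ, ∀ n, n0 ≤ n → n % 2 = 1 → c * lam ^ n ≤ W 0 n 1 := by
  obtain ⟨L, hL2, hL⟩ : ∃ L : ℕ, 2 ≤ L ∧ 2 ≤ (2 - lam) * ((L : ℝ) - 1) := by
    obtain ⟨L, hL⟩ := exists_nat_gt (2 / (2 - lam) + 1)
    have h2 : 0 < 2 - lam := by linarith
    have h3 : 0 < 2 / (2 - lam) := by positivity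
    refine ⟨L + 2, by omega, ?_⟩
    push_cast
    have h4 : 2 / (2 - lam) ≤ (L : ℝ) + 2 - 1 := by linarith
    calc (2:ℝ) = (2 - lam) * (2 / (2 - lam)) := by field_simp
      _ ≤ (2 - lam) * ((L : ℝ) + 2 - 1) := mul_le_mul_of_nonneg_left h4 h2.le
  set u : ℕ → ℝ := fun m => if m ≤ L then (m : ℝ) * (L - m) else 0 with hu
  have hLr : (2:ℝ) ≤ L := by exact_mod_cast hL2
  have hu0 : ∀ m, 0 ≤ u m := by
    intro m
    simp only [hu]
    split_ifs with h
    · have : (m:ℝ) ≤ L := by exact_mod_cast h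
      have : 0 ≤ (L:ℝ) - m := by linarith
      positivity
    · exact le_rfl
  have hub : ∀ m, u m ≤ (L:ℝ) ^ 2 := by
    intro m
    simp only [hu]
    split_ifs with h
    · have h1 : (m:ℝ) ≤ L := by exact_mod_cast h
      have h2 : (0:ℝ) ≤ m := Nat.cast_nonneg m
      nlinarith
    · positivity
  have huz : ∀ m, L ≤ m → u m = 0 := by
    intro m hm
    simp only [hu]
    split_ifs with h
    · have : m = L := le_antisymm h hm
      rw [this]; ring
    · rfl
  have hu00 : u 0 = 0 := by simp [hu]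
  set c : ℝ := 1 / (L:ℝ) ^ 2 with hc
  have hc0 : 0 < c := by positivity
  have key := W_growth (x := 0) (lam := lam) le_rfl hl0.le u ?_ ?_ (2 * L) c hc0.le ?_
  · refine ⟨c * u 1 / lam ^ (2 * L), ?_, 2 * L, ?_⟩
    · have : 0 < u 1 := by
        simp only [hu]
        rw [if_pos (by omega)]
        push_cast
        nlinarith
      positivity
    · intro n hn hn2
      obtain ⟨j, rfl⟩ := Nat.exists_eq_add_of_le hn
      have h2 := key j 1 (by omega)
      refine le_trans (le_of_eq ?_) h2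
      rw [pow_add]
      field_simp
  · rw [hu00]; simp
  · intro m
    rcases lt_or_ge (m + 1) L with h | h
    · have e1 : u (m + 1) = ((m:ℝ) + 1) * (L - (m + 1)) := by
        simp only [hu]; rw [if_pos (by omega)]; push_cast; ring
      have e2 : u m = (m:ℝ) * (L - m) := by
        simp only [hu]; rw [if_pos (by omega)]
      have e3 : u (m + 2) = ((m:ℝ) + 2) * (L - (m + 2)) := by
        simp only [hu]; rw [if_pos (by omega)]; push_cast; ring
      rw [e1, e2, e3]
      have h5 : (m:ℝ) + 2 ≤ L := by exact_mod_cast h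
      have h6 : (0:ℝ) ≤ m := Nat.cast_nonneg m
      -- `u (m+1) ≥ L - 1`
      have h7 : (L:ℝ) - 1 ≤ ((m:ℝ) + 1) * (L - (m + 1)) := by nlinarith
      have h8 := mul_le_mul_of_nonneg_left h7 (show 0 ≤ 2 - lam by linarith)
      nlinarith
    · rw [huz _ h, mul_zero]
      exact add_nonneg (hu0 _) (hu0 _)
  · intro m hm
    rcases le_or_gt L m with h | h
    · rw [huz m h, mul_zero]; exact W_nonneg le_rfl _ _
    · rcases m with _ | m
      · rw [hu00, mul_zero]; exact W_nonneg le_rfl _ _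
      · refine le_trans ?_ (W_ge_one le_rfl (2 * L) m (by omega) (by omega))
        calc c * u (m + 1) ≤ c * (L:ℝ) ^ 2 := mul_le_mul_of_nonneg_left (hub _) hc0.le
          _ = 1 := by rw [hc]; field_simp

end Pool.Agent.K1H33.Tk
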