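import Pool.Agent.K1H33.Tk.Upper
import Pool.Agent.Y754.GD.Dim

/-!
# Lower bounds for the dimensions
-/

set_option autoImplicit false

namespace Pool.Agent.K1H33.Tk

open Finset Filter Topology Pool.Agent.H316R3.Tak

/-- expansions in base `b` -/
noncomputable def V (b : ℝ) (a : ℕ → ℕ) : ℝ := ∑' i, (a i : ℝ) / b ^ (i + 1)

section digits

variable {b : ℝ} (hb : 4 ≤ b)
include hb

lemma V_summable {a : ℕ → ℕ} (ha : ∀ i, (a i : ℝ) + 2 ≤ b) :
    Summable fun i => (a i : ℝ) / b ^ (i + 1) := by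
  have hb0 : 0 < b := by linarith
  have h1 : Summable fun i : ℕ => (b⁻¹) ^ i :=
    summable_geometric_of_lt_one (by positivity) (inv_lt_one_of_one_lt₀ (by linarith))
  refine Summable.of_nonneg_of_le (fun i => by positivity) (fun i => ?_) h1
  rw [inv_pow, div_le_iff₀ (by positivity), pow_succ, ← mul_assoc, inv_mul_cancel₀ (by positivity),
    one_mul]
  linarith [ha i]

lemma V_succ {a : ℕ → ℕ} (ha : ∀ i, (a i : ℝ) + 2 ≤ b) :
    V b a = (a 0 + V b (fun i => a (i + 1))) / b := by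
  have hb0 : 0 < b := by linarith
  unfold V
  rw [(V_summable hb ha).tsum_eq_zero_add, add_div, ← tsum_div_const]
  congr 1
  · rw [zero_add, pow_one]
  · refine tsum_congr fun i => ?_
    rw [div_div, ← pow_succ]

lemma V_nonneg (a : ℕ → ℕ) : 0 ≤ V b a := by
  have hb0 : 0 < b := by linarith
  exact tsum_nonneg fun i => by positivity

lemma V_le {a : ℕ → ℕ} (ha : ∀ i, (a i : ℝ) + 2 ≤ b) : V b a ≤ (b - 2) / (b - 1) := by
  have hb0 : 0 < b := by linarith
  have h1 : Summable fun i : ℕ => (b⁻¹) ^ i :=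
    summable_geometric_of_lt_one (by positivity) (inv_lt_one_of_one_lt₀ (by linarith))
  have h2 : V b a ≤ ∑' i : ℕ, (b - 2) / b * (b⁻¹) ^ i := by
    refine (V_summable hb ha).tsum_le_tsum (fun i => ?_) (h1.mul_left _)
    rw [inv_pow, pow_succ, ← div_eq_mul_inv, div_div, mul_comm b]
    apply div_le_div_of_nonneg_right _ (by positivity)
    linarith [ha i]
  rw [tsum_mul_left, tsum_geometric_of_lt_one (by positivity)
    (inv_lt_one_of_one_lt₀ (by linarith))] at h2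
  refine h2.trans (le_of_eq ?_)
  have : b - 1 ≠ 0 := by linarith
  have : 1 - b⁻¹ = (b - 1) / b := by field_simp
  rw [this]
  field_simp

lemma V_le_one {a : ℕ → ℕ} (ha : ∀ i, (a i : ℝ) + 2 ≤ b) : V b a ≤ 1 := by
  refine (V_le hb ha).trans ?_
  rw [div_le_one (by linarith)]
  linarith

lemma V_sep : ∀ (n : ℕ) (a a' : ℕ → ℕ), (∀ i, (a i : ℝ) + 2 ≤ b) → (∀ i, (a' i : ℝ) + 2 ≤ b) →
    (∀ i < n, a i = a' i) → a n ≠ a' n →
    (b⁻¹) ^ n * (b⁻¹ * (1 / (b - 1))) ≤ |V b a - V b a'| := by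
  have hb0 : 0 < b := by linarith
  have hb1 : 0 < b - 1 := by linarith
  intro n
  induction n with
  | zero =>
    intro a a' ha ha' _ hne
    rw [pow_zero, one_mul, V_succ hb ha, V_succ hb ha', ← sub_div, abs_div, abs_of_pos hb0,
      le_div_iff₀ hb0]
    have h1 := V_nonneg hb (fun i => a (i + 1))
    have h2 := V_nonneg hb (fun i => a' (i + 1))
    have h3 := V_le hb (a := fun i => a (i + 1)) (fun i => ha (i + 1))
    have h4 := V_le hb (a := fun i => a' (i + 1)) (fun i => ha' (i + 1))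
    have h5 : (b - 2) / (b - 1) = 1 - 1 / (b - 1) := by field_simp; ring
    have h6 : b⁻¹ * (1 / (b - 1)) * b = 1 / (b - 1) := by field_simp
    rw [h6]
    rw [h5] at h3 h4
    rcases lt_or_gt_of_ne hne with h | h
    · have h7 : (a 0 : ℝ) + 1 ≤ a' 0 := by exact_mod_cast h
      rw [abs_sub_comm]
      refine le_trans ?_ (le_abs_self _)
      linarith
    · have h7 : (a' 0 : ℝ) + 1 ≤ a 0 := by exact_mod_cast h
      refine le_trans ?_ (le_abs_self _)
      linarith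
  | succ n ih =>
    intro a a' ha ha' hag hne
    have h1 := ih (fun i => a (i + 1)) (fun i => a' (i + 1)) (fun i => ha (i + 1))
      (fun i => ha' (i + 1)) (fun i hi => hag (i + 1) (by omega)) hne
    rw [V_succ hb ha, V_succ hb ha', hag 0 (by omega), ← sub_div, add_sub_add_left_eq_sub,
      abs_div, abs_of_pos hb0, le_div_iff₀ hb0, pow_succ]
    have e : b⁻¹ ^ n * b⁻¹ * (b⁻¹ * (1 / (b - 1))) * b = b⁻¹ ^ n * (b⁻¹ * (1 / (b - 1))) := by
      field_simp
    rw [e]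
    exact h1

/-- dimension of a set of expansions -/
lemma dimH_digits {K : ℕ} (hK : 1 ≤ K) (d : ℕ → Fin K → ℕ) (hd : ∀ i t, (d i t : ℝ) + 2 ≤ b)
    (hinj : ∀ i, Function.Injective (d i)) :
    ENNReal.ofReal (Real.logb b K) ≤
      dimH (Set.range fun t : ℕ → Fin K => V b (fun i => d i (t i))) := by
  have hb0 : 0 < b := by linarith
  have hb1 : 0 < b - 1 := by linarith
  rcases hK.eq_or_lt with h | h
  · have h2 : Real.logb b (K:ℝ) = 0 := by rw [← h]; simp
    rw [h2]; simp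
  have hKr : (1:ℝ) < K := by exact_mod_cast h
  apply Pool.Agent.Y754.GD.dimH_range_ge K h _ b⁻¹ (b⁻¹ * (1 / (b - 1))) _ (by positivity)
    (by positivity) (Real.logb_pos (by linarith) hKr)
  · rw [Real.inv_rpow hb0.le, Real.rpow_logb hb0 (by linarith) (by linarith)]
  · intro t t' n hag hne
    apply V_sep hb n _ _ (fun i => hd i _) (fun i => hd i _)
    · intro i hi
      rw [hag i hi]
    · intro heq
      exact hne (hinj n heq)

end digits

/-- the Takagi function of a concatenation of balanced words -/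
lemma T_V {k : ℕ} (hk : 1 ≤ k) : ∀ (n : ℕ) (j c : ℕ → ℕ), (∀ i, j i ∈ Bal k (c i)) →
    |T (V (4 ^ k) j) - V (4 ^ k) c| ≤ ((4:ℝ) ^ k)⁻¹ ^ n := by
  have hb : (4:ℝ) ≤ 4 ^ k := by
    calc (4:ℝ) = 4 ^ 1 := by norm_num
      _ ≤ 4 ^ k := pow_le_pow_right₀ (by norm_num) hk
  have hjb : ∀ {j c : ℕ}, j ∈ Bal k c → (j:ℝ) + 2 ≤ 4 ^ k := by
    intro j c h
    exact_mod_cast Bal_lt hk h
  have hcb : ∀ {j c : ℕ}, j ∈ Bal k c → (c:ℝ) + 2 ≤ 4 ^ k := by
    intro j c h
    exact_mod_cast B_pos_lt hk (Finset.card_pos.2 ⟨j, h⟩)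
  intro n
  induction n with
  | zero =>
    intro j c h
    have h1 := V_nonneg hb j
    have h2 := V_le_one hb (fun i => hjb (h i))
    have h3 := V_nonneg hb c
    have h4 := V_le_one hb (fun i => hcb (h i))
    have h5 := T_nonneg (V (4 ^ k) j)
    have h6 := T_le _ h1 h2
    rw [pow_zero, abs_le]
    constructor <;> linarith
  | succ n ih =>
    intro j c h
    have h1 := V_nonneg hb (fun i => j (i + 1))
    have h2 := V_le_one hb (a := fun i => j (i + 1)) (fun i => hjb (h (i + 1)))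
    rw [V_succ hb (fun i => hjb (h i)), V_succ hb (fun i => hcb (h i)), T_bal (h 0) h1 h2,
      ← sub_div, add_sub_add_left_eq_sub, abs_div, abs_of_pos (show (0:ℝ) < 4 ^ k by positivity),
      pow_succ, ← div_eq_mul_inv]
    apply div_le_div_of_nonneg_right _ (by positivity)
    exact ih (fun i => j (i + 1)) (fun i => c (i + 1)) (fun i => h (i + 1))

lemma T_V_eq {k : ℕ} (hk : 1 ≤ k) (j c : ℕ → ℕ) (h : ∀ i, j i ∈ Bal k (c i)) :
    T (V (4 ^ k) j) = V (4 ^ k) c := by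
  have h1 : Tendsto (fun n : ℕ => ((4:ℝ) ^ k)⁻¹ ^ n) atTop (𝓝 0) := by
    apply tendsto_pow_atTop_nhds_zero_of_lt_one (by positivity)
    apply inv_lt_one_of_one_lt₀
    exact one_lt_pow₀ (by norm_num) (by omega)
  have h2 : |T (V (4 ^ k) j) - V (4 ^ k) c| ≤ 0 :=
    ge_of_tendsto' h1 fun n => T_V hk n j c h
  have h3 := abs_nonpos_iff.1 h2
  linarith

/-- the lower bound of one level -/
lemma sk_le_dimH {a : ℝ} (ha : a ≤ 1 / 2) {k : ℕ} (hk : 1 ≤ k) :
    ENNReal.ofReal (sk a k) ≤ dimH (E a) := by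
  classical
  have hk' : (0:ℝ) < k := by exact_mod_cast hk
  have hb : (4:ℝ) ≤ 4 ^ k := by
    calc (4:ℝ) = 4 ^ 1 := by norm_num
      _ ≤ 4 ^ k := pow_le_pow_right₀ (by norm_num) hk
  have hjb : ∀ {j c : ℕ}, j ∈ Bal k c → (j:ℝ) + 2 ≤ 4 ^ k := by
    intro j c h
    exact_mod_cast Bal_lt hk h
  have hcb : ∀ {j c : ℕ}, j ∈ Bal k c → (c:ℝ) + 2 ≤ 4 ^ k := by
    intro j c h
    exact_mod_cast B_pos_lt hk (Finset.card_pos.2 ⟨j, h⟩)
  have hlog : ∀ x : ℝ, Real.logb (4 ^ k) x = Real.logb 4 x / k := by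
    intro x
    unfold Real.logb
    rw [Real.log_pow]
    have : Real.log 4 ≠ 0 := (Real.log_pos (by norm_num)).ne'
    field_simp
  set t : ℝ := (4:ℝ) ^ (a * k) with ht
  have ht0 : 0 < t := by positivity
  set 𝒞 : Finset ℕ := (range (4 ^ k)).filter fun c => t ≤ (B k c : ℝ) with h𝒞
  have hcard : 𝒞.card = N k t := by rw [h𝒞]; rfl
  have hcard1 : 1 ≤ 𝒞.card := by rw [hcard]; exact N_thr_pos ha k
  set e := 𝒞.orderEmbOfFin rfl with he
  have he1 : ∀ i, t ≤ (B k (e i) : ℝ) := by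
    intro i
    have := 𝒞.orderEmbOfFin_mem rfl i
    exact (Finset.mem_filter.1 this).2
  set K : ℕ := ⌈t⌉₊ with hK
  have hK1 : 1 ≤ K := Nat.one_le_iff_ne_zero.2 (Nat.ceil_pos.2 ht0).ne'
  have hKt : t ≤ K := Nat.le_ceil t
  have hKB : ∀ i, K ≤ B k (e i) := fun i => Nat.ceil_le.2 (he1 i)
  have hB0 : ∀ i, 0 < B k (e i) := fun i => lt_of_lt_of_le (by omega) (hKB i)
  have hne : ∀ i, ∃ j, j ∈ Bal k (e i) := fun i => Finset.card_pos.1 (hB0 i)
  -- the enumerations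
  set g : ∀ i : Fin 𝒞.card, Fin K → ℕ := fun i u =>
    (Bal k (e i)).orderEmbOfFin rfl (Fin.castLE (hKB i) u) with hg
  have hgmem : ∀ i u, g i u ∈ Bal k (e i) := fun i u => Finset.orderEmbOfFin_mem _ rfl _
  have hginj : ∀ i, Function.Injective (g i) := by
    intro i u v huv
    have h1 := ((Bal k (e i)).orderEmbOfFin rfl).injective huv
    exact Fin.castLE_injective _ h1
  have h1 := dimH_digits hb hcard1 (fun _ i => e i) (fun _ i => by
    obtain ⟨j, hj⟩ := hne i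
    exact hcb hj) (fun _ => e.injective)
  have e1 : Real.logb (4 ^ k) (𝒞.card : ℝ) = sk a k := by
    rw [hlog, hcard]; rfl
  rw [e1] at h1
  refine h1.trans (dimH_mono ?_)
  rintro _ ⟨w, rfl⟩
  have hT : ∀ u : ℕ → Fin K, T (V (4 ^ k) (fun i => g (w i) (u i))) =
      V (4 ^ k) (fun i => e (w i)) := fun u => T_V_eq hk _ _ (fun i => hgmem _ _)
  have hV0 : ∀ u : ℕ → Fin K, 0 ≤ V (4 ^ k) (fun i => g (w i) (u i)) := fun u => V_nonneg hb _
  have hV1 : ∀ u : ℕ → Fin K, V (4 ^ k) (fun i => g (w i) (u i)) ≤ 1 := fun u =>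
    V_le_one hb (fun i => hjb (hgmem _ _))
  refine ⟨⟨V_nonneg hb _, ?_⟩, ?_⟩
  · simp only
    rw [← hT (fun _ => ⟨0, hK1⟩)]
    exact T_le _ (hV0 _) (hV1 _)
  · have h2 := dimH_digits hb hK1 (fun i u => g (w i) u) (fun i u => hjb (hgmem _ _))
      (fun i => hginj _)
    have h3 : ENNReal.ofReal a ≤ ENNReal.ofReal (Real.logb (4 ^ k) (K : ℝ)) := by
      apply ENNReal.ofReal_le_ofReal
      rw [hlog, le_div_iff₀ hk', ← logb_pow4 (a * k)]
      exact Real.logb_le_logb_of_le (by norm_num) ht0 hKt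
    refine h3.trans (h2.trans (dimH_mono ?_))
    rintro _ ⟨u, rfl⟩
    exact ⟨⟨hV0 u, hV1 u⟩, hT u⟩

/-- the lower bound -/
lemma le_dimH_E {a : ℝ} (ha : a ≤ 1 / 2) : ENNReal.ofReal (s a) ≤ dimH (E a) := by
  have h := ENNReal.tendsto_ofReal (sk_tendsto ha)
  apply le_of_tendsto h
  filter_upwards [eventually_ge_atTop 1] with k hk
  exact sk_le_dimH ha hk

/-- **The dimension spectrum.** -/
theorem dimH_E_eq {α : ℝ} (h0 : 0 ≤ α) (h1 : α ≤ 1 / 2) : dimH (E α) = ENNReal.ofReal (s α) :=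
  le_antisymm (dimH_E_le h0 h1) (le_dimH_E h1)

end Pool.Agent.K1H33.Tk
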