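import Pool.Agent.K1H33.Tk.Count

/-!
# Strictly positive paths: at most linearly many of them have a given value
-/

set_option autoImplicit false

namespace Pool.Agent.K1H33.Tk

open Finset

/-- number of the paths from height `m + 1` which stay strictly positive for `n` steps and whose
dyadic interval can meet the level `r` -/
noncomputable def Ps : ℕ → ℕ → ℝ → ℕ
  | 0, m, r => if 0 ≤ r ∧ r < m + 2 then 1 else 0
  | n + 1, 0, r => Ps n 1 (2 * r)
  | n + 1, m + 1, r => Ps n (m + 2) (2 * r) + Ps n m (2 * r - (m + 3))

lemma Ps_neg : ∀ (n m : ℕ) (r : ℝ), r < 0 → Ps n m r = 0 := by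
  intro n
  induction n with
  | zero => intro m r h; simp only [Ps]; rw [if_neg]; rintro ⟨h1, -⟩; linarith
  | succ n ih =>
    intro m r h
    rcases m with _ | m
    · simp only [Ps]; exact ih _ _ (by linarith)
    · simp only [Ps]
      rw [ih _ _ (by linarith), ih]
      have : (0:ℝ) ≤ m := Nat.cast_nonneg m
      linarith

lemma Ps_big : ∀ (n m : ℕ) (r : ℝ), (m : ℝ) + 2 ≤ r → Ps n m r = 0 := by
  intro n
  induction n with
  | zero => intro m r h; simp only [Ps]; rw [if_neg]; rintro ⟨-, h1⟩; linarith
  | succ n ih =>
    intro m r h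
    rcases m with _ | m
    · simp only [Ps]
      apply ih
      push_cast at h ⊢
      linarith
    · simp only [Ps]
      have h0 : (0:ℝ) ≤ m := Nat.cast_nonneg m
      push_cast at h
      rw [ih (m + 2) _ (by push_cast; linarith), ih m _ (by linarith)]

/-- above the line `r = m` there is at most one path -/
lemma Ps_le_one : ∀ (n m : ℕ) (r : ℝ), (m : ℝ) + 1 ≤ r → Ps n m r ≤ 1 := by
  intro n
  induction n with
  | zero => intro m r h; simp only [Ps]; split_ifs <;> norm_num
  | succ n ih =>
    intro m r h
    rcases m with _ | m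
    · simp only [Ps]
      apply ih
      push_cast at h ⊢
      linarith
    · simp only [Ps]
      have h0 : (0:ℝ) ≤ m := Nat.cast_nonneg m
      push_cast at h
      rw [Ps_big n (m + 2) _ (by push_cast; linarith), zero_add]
      apply ih
      linarith

lemma Ps_le : ∀ (n m : ℕ) (r : ℝ), Ps n m r ≤ n + 1 := by
  intro n
  induction n with
  | zero => intro m r; simp only [Ps]; split_ifs <;> norm_num
  | succ n ih =>
    intro m r
    rcases m with _ | m
    · simp only [Ps]
      exact (ih 1 (2 * r)).trans (by omega)
    · simp only [Ps]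
      rcases lt_or_ge (2 * r) (m + 3) with h | h
      · rw [Ps_neg n m _ (by linarith), add_zero]
        exact (ih _ _).trans (by omega)
      · have h1 := Ps_le_one n (m + 2) (2 * r) (by push_cast; linarith)
        have h2 := ih m (2 * r - (m + 3))
        omega

/-- the paths which return to zero only at the end -/
lemma D_zero_le : ∀ n m R : ℕ, D 0 n (m + 1) R ≤ Ps n m ((R : ℝ) / 2 ^ n) := by
  intro n
  induction n with
  | zero =>
    intro m R
    simp only [D]
    rw [if_neg (by omega)]
    positivity
  | succ n ih =>
    intro m R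
    have e2 : 2 * ((R : ℝ) / 2 ^ (n + 1)) = (R : ℝ) / 2 ^ n := by
      rw [pow_succ]; field_simp
    rcases m with _ | m
    · simp only [D, Ps]
      rw [e2]
      rcases n with _ | n
      · simp only [D, Ps]
        have h2 : ¬ (0 + 2 = 0 ∧ R = 0) := by omega
        rw [if_neg h2, zero_add]
        by_cases h1 : R < 3
        · have h3 : (0:ℝ) ≤ (R:ℝ) / 2 ^ 0 ∧ (R:ℝ) / 2 ^ 0 < (1:ℕ) + 2 := by
            refine ⟨by positivity, ?_⟩
            rw [pow_zero, div_one]
            push_cast
            have : (R:ℝ) < 3 := by exact_mod_cast h1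
            linarith
          rw [if_pos h3]
          split_ifs <;> simp
        · split_ifs with h3 h4 <;> first | omega | simp
      · have h1 := ih 1 R
        simp only [D, zero_mul, ite_self, add_zero] at h1 ⊢
        exact h1
    · simp only [D]
      simp only [Ps]
      rw [e2]
      have h1 := ih (m + 2) R
      push_cast
      split_ifs with h
      · have h2 := ih m (R - (m + 1 + 2) * 2 ^ n)
        have e3 : ((R - (m + 1 + 2) * 2 ^ n : ℕ) : ℝ) / 2 ^ n = (R : ℝ) / 2 ^ n - (m + 3) := by
          rw [Nat.cast_sub h]
          push_cast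
          field_simp
          ring
        rw [e3] at h2
        linarith
      · have : (0:ℝ) ≤ Ps n m ((R : ℝ) / 2 ^ n - (m + 3)) := Nat.cast_nonneg _
        linarith

lemma D_zero_le' (n m R : ℕ) : D 0 n (m + 1) R ≤ n + 1 := by
  refine (D_zero_le n m R).trans ?_
  have := Ps_le n m ((R : ℝ) / 2 ^ n)
  exact_mod_cast this

end Pool.Agent.K1H33.Tk
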