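import Pool.Agent.K1H33.Tk.Words

/-!
# Moments and counting functions of the numbers `B k c`
-/

set_option autoImplicit false

namespace Pool.Agent.K1H33.Tk

open Finset Filter Topology

/-- the moments -/
noncomputable def Z (k : ℕ) (q : ℝ) : ℝ := ∑ c ∈ range (4 ^ k), (B k c : ℝ) ^ q

open Classical in
/-- the counting function -/
noncomputable def N (k : ℕ) (t : ℝ) : ℕ := ((range (4 ^ k)).filter fun c => t ≤ (B k c : ℝ)).card

lemma glue_lt {k l c c' : ℕ} (hc : c < 4 ^ k) (hc' : c' < 4 ^ l) :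
    c * 4 ^ l + c' < 4 ^ (k + l) := by
  calc c * 4 ^ l + c' < c * 4 ^ l + 4 ^ l := by omega
    _ = (c + 1) * 4 ^ l := by ring
    _ ≤ 4 ^ k * 4 ^ l := by gcongr; omega
    _ = 4 ^ (k + l) := by rw [pow_add]

lemma glue_inj {l c c' d d' : ℕ} (hc' : c' < 4 ^ l) (hd' : d' < 4 ^ l)
    (h : c * 4 ^ l + c' = d * 4 ^ l + d') : c = d ∧ c' = d' := by
  have hp : 0 < 4 ^ l := by positivity
  have e1 : (c * 4 ^ l + c') / 4 ^ l = c := by
    rw [mul_comm, Nat.mul_add_div hp, Nat.div_eq_of_lt hc', add_zero]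
  have e2 : (d * 4 ^ l + d') / 4 ^ l = d := by
    rw [mul_comm, Nat.mul_add_div hp, Nat.div_eq_of_lt hd', add_zero]
  have e3 : c = d := by rw [← e1, h, e2]
  subst e3
  exact ⟨rfl, by omega⟩

lemma Z_mul (k l : ℕ) {q : ℝ} (hq : 0 < q) : Z k q * Z l q ≤ Z (k + l) q := by
  classical
  unfold Z
  rw [Finset.sum_mul_sum, ← Finset.sum_product']
  calc ∑ p ∈ range (4 ^ k) ×ˢ range (4 ^ l), (B k p.1 : ℝ) ^ q * (B l p.2 : ℝ) ^ q
      ≤ ∑ p ∈ range (4 ^ k) ×ˢ range (4 ^ l), (B (k + l) (p.1 * 4 ^ l + p.2) : ℝ) ^ q := by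
        apply Finset.sum_le_sum
        intro p _
        rw [← Real.mul_rpow (by positivity) (by positivity)]
        apply Real.rpow_le_rpow (by positivity) _ hq.le
        exact_mod_cast B_append k l p.1 p.2
    _ = ∑ x ∈ (range (4 ^ k) ×ˢ range (4 ^ l)).image (fun p => p.1 * 4 ^ l + p.2),
          (B (k + l) x : ℝ) ^ q := by
        rw [Finset.sum_image]
        rintro ⟨c, c'⟩ h1 ⟨d, d'⟩ h2 heq
        have h1' := Finset.mem_product.1 (Finset.mem_coe.1 h1)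
        have h2' := Finset.mem_product.1 (Finset.mem_coe.1 h2)
        obtain ⟨rfl, rfl⟩ := glue_inj (Finset.mem_range.1 h1'.2) (Finset.mem_range.1 h2'.2) heq
        rfl
    _ ≤ _ := by
        apply Finset.sum_le_sum_of_subset_of_nonneg
        · intro x hx
          obtain ⟨p, hp, rfl⟩ := Finset.mem_image.1 hx
          have hp' := Finset.mem_product.1 hp
          exact Finset.mem_range.2 (glue_lt (Finset.mem_range.1 hp'.1) (Finset.mem_range.1 hp'.2))
        · intro x _ _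
          positivity

lemma N_mul (k l : ℕ) {t t' : ℝ} (ht' : 0 ≤ t') :
    N k t * N l t' ≤ N (k + l) (t * t') := by
  classical
  unfold N
  rw [← Finset.card_product]
  apply Finset.card_le_card_of_injOn (fun p : ℕ × ℕ => p.1 * 4 ^ l + p.2)
  · rintro ⟨c, c'⟩ h
    have h' := Finset.mem_product.1 (Finset.mem_coe.1 h)
    obtain ⟨h1, h2⟩ := Finset.mem_filter.1 h'.1
    obtain ⟨h3, h4⟩ := Finset.mem_filter.1 h'.2
    apply Finset.mem_coe.2
    apply Finset.mem_filter.2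
    refine ⟨Finset.mem_range.2 (glue_lt (Finset.mem_range.1 h1) (Finset.mem_range.1 h3)), ?_⟩
    calc t * t' ≤ (B k c : ℝ) * B l c' := mul_le_mul h2 h4 ht' (by positivity)
      _ ≤ _ := by exact_mod_cast B_append k l c c'
  · rintro ⟨c, c'⟩ h1 ⟨d, d'⟩ h2 heq
    have h1' := Finset.mem_product.1 (Finset.mem_coe.1 h1)
    have h2' := Finset.mem_product.1 (Finset.mem_coe.1 h2)
    have h3 := Finset.mem_range.1 (Finset.mem_filter.1 h1'.2).1
    have h4 := Finset.mem_range.1 (Finset.mem_filter.1 h2'.2).1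
    obtain ⟨rfl, rfl⟩ := glue_inj h3 h4 heq
    rfl

lemma B_zero : B 0 0 = 1 := by
  have h := B_eq_D 0 0
  simp only [D] at h
  simpa using h

lemma B_one : B 1 2 = 2 := by
  have h := B_eq_D 1 2
  simp only [D] at h
  norm_num at h
  exact_mod_cast h

lemma exists_max (k : ℕ) : ∃ c < 4 ^ k, 2 ^ k ≤ B k c := by
  induction k with
  | zero => exact ⟨0, by norm_num, by rw [B_zero]; norm_num⟩
  | succ k ih =>
    obtain ⟨c, hc, h⟩ := ih
    refine ⟨c * 4 ^ 1 + 2, glue_lt hc (by norm_num), ?_⟩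
    have h2 := B_append k 1 c 2
    rw [B_one] at h2
    calc 2 ^ (k + 1) = 2 ^ k * 2 := by ring
      _ ≤ B k c * 2 := by gcongr
      _ ≤ _ := h2

lemma N_anti {k : ℕ} {t t' : ℝ} (h : t ≤ t') : N k t' ≤ N k t := by
  classical
  unfold N
  apply Finset.card_le_card
  intro c hc
  obtain ⟨h1, h2⟩ := Finset.mem_filter.1 hc
  exact Finset.mem_filter.2 ⟨h1, h.trans h2⟩

lemma N_pos {k : ℕ} {t : ℝ} (h : t ≤ 2 ^ k) : 1 ≤ N k t := by
  classical
  unfold N
  obtain ⟨c, hc, h2⟩ := exists_max k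
  rw [Nat.one_le_iff_ne_zero, ← Nat.pos_iff_ne_zero, Finset.card_pos]
  refine ⟨c, Finset.mem_filter.2 ⟨Finset.mem_range.2 hc, h.trans ?_⟩⟩
  exact_mod_cast h2

lemma N_le (k : ℕ) (t : ℝ) : N k t ≤ 4 ^ k := by
  classical
  unfold N
  calc _ ≤ (range (4 ^ k)).card := Finset.card_filter_le _ _
    _ = 4 ^ k := Finset.card_range _

lemma N_pow (k : ℕ) {t : ℝ} (ht : 0 ≤ t) (n : ℕ) : N k t ^ n ≤ N (n * k) (t ^ n) := by
  induction n with
  | zero =>
    rw [pow_zero, pow_zero, zero_mul]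
    exact N_pos (by norm_num)
  | succ n ih =>
    rw [pow_succ, pow_succ, add_mul, one_mul]
    exact (Nat.mul_le_mul_right _ ih).trans (N_mul _ _ ht)

lemma Z_ge (k : ℕ) {q : ℝ} (hq : 0 < q) : ((2:ℝ) ^ k) ^ q ≤ Z k q := by
  obtain ⟨c, hc, h⟩ := exists_max k
  unfold Z
  calc ((2:ℝ) ^ k) ^ q ≤ (B k c : ℝ) ^ q := by
        apply Real.rpow_le_rpow (by positivity) _ hq.le
        exact_mod_cast h
    _ ≤ _ := Finset.single_le_sum (f := fun c => (B k c : ℝ) ^ q) (fun i _ => by positivity)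
        (Finset.mem_range.2 hc)

lemma Z_pos (k : ℕ) {q : ℝ} (hq : 0 < q) : 0 < Z k q :=
  lt_of_lt_of_le (by positivity) (Z_ge k hq)

lemma Z_le (k : ℕ) {q : ℝ} (hq : 0 < q) : Z k q ≤ 4 ^ k * ((2:ℝ) ^ k) ^ q := by
  unfold Z
  calc _ ≤ ∑ c ∈ range (4 ^ k), ((2:ℝ) ^ k) ^ q := by
        apply Finset.sum_le_sum
        intro c _
        apply Real.rpow_le_rpow (by positivity) _ hq.le
        exact_mod_cast B_le k c
    _ = _ := by rw [Finset.sum_const, Finset.card_range]; simp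

lemma logb_pow4 (x : ℝ) : Real.logb 4 ((4:ℝ) ^ x) = x :=
  Real.logb_rpow (by norm_num) (by norm_num)

lemma two_pow_eq (k : ℕ) : (2:ℝ) ^ k = (4:ℝ) ^ ((k:ℝ) / 2) := by
  rw [show (4:ℝ) = (2:ℝ) ^ (2:ℝ) by norm_num, ← Real.rpow_mul (by norm_num),
    show (2:ℝ) * ((k:ℝ) / 2) = k by ring, Real.rpow_natCast]

lemma four_pow_eq (k : ℕ) : (4:ℝ) ^ k = (4:ℝ) ^ (k:ℝ) := (Real.rpow_natCast _ _).symm

lemma logZ_le (k : ℕ) {q : ℝ} (hq : 0 < q) : Real.logb 4 (Z k q) ≤ k * (1 + q / 2) := by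
  have h1 : Real.logb 4 (Z k q) ≤ Real.logb 4 (4 ^ k * ((2:ℝ) ^ k) ^ q) :=
    Real.logb_le_logb_of_le (by norm_num) (Z_pos k hq) (Z_le k hq)
  rw [two_pow_eq, four_pow_eq, ← Real.rpow_mul (by norm_num), ← Real.rpow_add (by norm_num),
    logb_pow4] at h1
  linarith

/-- the pressure, `-inf` of the negated quotients -/
noncomputable def P (q : ℝ) : ℝ :=
  -sInf ((fun n : ℕ => (-Real.logb 4 (Z n q)) / (n:ℝ)) '' Set.Ici 1)

lemma Z_sub {q : ℝ} (hq : 0 < q) : Subadditive fun n : ℕ => -Real.logb 4 (Z n q) := by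
  intro m n
  have h := Z_mul m n hq
  have h1 : Real.logb 4 (Z m q * Z n q) ≤ Real.logb 4 (Z (m + n) q) :=
    Real.logb_le_logb_of_le (by norm_num) (mul_pos (Z_pos m hq) (Z_pos n hq)) h
  rw [Real.logb_mul (Z_pos m hq).ne' (Z_pos n hq).ne'] at h1
  simp only
  linarith

lemma Z_bdd {q : ℝ} (hq : 0 < q) :
    BddBelow (Set.range fun n : ℕ => (-Real.logb 4 (Z n q)) / (n:ℝ)) := by
  refine ⟨-(1 + q / 2), ?_⟩
  rintro _ ⟨n, rfl⟩
  rcases Nat.eq_zero_or_pos n with hn | hn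
  · subst hn
    simp only [Nat.cast_zero, div_zero]
    linarith
  · have hn' : (0:ℝ) < n := by exact_mod_cast hn
    simp only
    rw [le_div_iff₀ hn']
    have := logZ_le n hq
    linarith

lemma P_tendsto {q : ℝ} (hq : 0 < q) :
    Tendsto (fun k : ℕ => Real.logb 4 (Z k q) / (k:ℝ)) atTop (𝓝 (P q)) := by
  have h := (Z_sub hq).tendsto_lim (Z_bdd hq)
  have h2 : Tendsto (fun n : ℕ => -((-Real.logb 4 (Z n q)) / (n:ℝ))) atTop
      (𝓝 (-(Z_sub hq).lim)) := h.neg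
  have h3 : -(Z_sub hq).lim = P q := by
    unfold P Subadditive.lim
    rfl
  rw [h3] at h2
  refine h2.congr fun n => ?_
  ring

lemma le_P {q : ℝ} (hq : 0 < q) {k : ℕ} (hk : 1 ≤ k) : Real.logb 4 (Z k q) / (k:ℝ) ≤ P q := by
  have h := (Z_sub hq).lim_le_div (Z_bdd hq) (n := k) (by omega)
  have h2 : (Z_sub hq).lim = -P q := by
    unfold P Subadditive.lim
    rw [neg_neg]
  rw [h2, neg_div] at h
  linarith

lemma Z_le_P {q : ℝ} (hq : 0 < q) {k : ℕ} (hk : 1 ≤ k) : Z k q ≤ (4:ℝ) ^ (k * P q) := by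
  have h := le_P hq hk
  have hk' : (0:ℝ) < k := by exact_mod_cast hk
  rw [div_le_iff₀ hk'] at h
  rw [← Real.logb_le_iff_le_rpow (by norm_num) (Z_pos k hq)]
  linarith

/-! ### Explicit bounds for the pressure -/

/-- the upper bound -/
lemma Z_le_weight {w q : ℝ} (hw1 : 1 ≤ w) (hw : w ^ 2 + 1 ≤ w ^ 3) (hw2 : w ≤ 2) (hq : 1 ≤ q)
    (k : ℕ) :
    Z k q ≤ ((2:ℝ) ^ q / (1 - w ^ (q - 1) / 2 ^ q)) ^ k := by
  have hw0 : 0 < w := by linarith
  have hq0 : 0 < q := by linarith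
  set Q : ℝ := 2 ^ q / w ^ (q - 1) with hQ
  have hwq : 0 < w ^ (q - 1) := Real.rpow_pos_of_pos hw0 _
  have h2q : (0:ℝ) < 2 ^ q := by positivity
  have hQ2 : 2 ≤ Q := by
    rw [hQ, le_div_iff₀ hwq]
    calc 2 * w ^ (q - 1) ≤ 2 * 2 ^ (q - 1) := by
          have := Real.rpow_le_rpow hw0.le hw2 (show 0 ≤ q - 1 by linarith)
          linarith
      _ = 2 ^ q := by
          rw [← Real.rpow_one_add' (by norm_num) (by linarith)]
          congr 1; ring
  have hQinv : w ^ (q - 1) / 2 ^ q = 1 / Q := by rw [hQ]; field_simp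
  rw [hQinv]
  set θ : ℝ := Real.sqrt (1 / (Q - 1)) with hθ
  have hQ1 : 0 < Q - 1 := by linarith
  have hθ0 : 0 < θ := Real.sqrt_pos.2 (by positivity)
  have hθ2 : θ ^ 2 = 1 / (Q - 1) := Real.sq_sqrt (by positivity)
  have hθQ : (Q - 1) * θ ^ 2 = 1 := by rw [hθ2]; field_simp
  have h1 : ∀ c ∈ range (4 ^ k), (B k c : ℝ) ^ q ≤ (w ^ k) ^ (q - 1) * D Q (2 * k) 0 c := by
    intro c _
    rw [B_eq_D]
    have h2 := D_holder (q := q) (x := 2) (y := w) (z := Q) hq (by norm_num) hw0.le (by linarith)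
      (by rw [hQ]; field_simp) (2 * k) 0 c
    refine h2.trans ?_
    apply mul_le_mul_of_nonneg_right _ (D_nonneg (by linarith) _ _ _)
    apply Real.rpow_le_rpow (D_nonneg hw0.le _ _ _) _ (by linarith)
    have h3 := D_le (w := w) (y := Real.sqrt w) (by
      rw [show (1:ℝ) = Real.sqrt 1 by simp]; exact Real.sqrt_le_sqrt hw1)
      (Real.sq_sqrt hw0.le) hw (2 * k) 0 c
    rw [pow_zero, mul_one, pow_mul, Real.sq_sqrt hw0.le] at h3
    exact h3
  calc Z k q ≤ ∑ c ∈ range (4 ^ k), (w ^ k) ^ (q - 1) * D Q (2 * k) 0 c :=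
        Finset.sum_le_sum h1
    _ = (w ^ k) ^ (q - 1) * W Q (2 * k) 0 := by
        rw [← Finset.mul_sum, sum_D]
        rw [zero_add, one_mul, pow_mul]; norm_num
    _ ≤ (w ^ k) ^ (q - 1) * ((Q * θ) ^ (2 * k) * θ ^ 0) :=
        mul_le_mul_of_nonneg_left (W_le (by linarith) hθ0 hθQ _ _) (by positivity)
    _ = (w ^ (q - 1) * (Q * θ) ^ 2) ^ k := by
        have e1 : (w ^ k) ^ (q - 1) = (w ^ (q - 1)) ^ k := by
          rw [← Real.rpow_natCast w k, ← Real.rpow_mul hw0.le, mul_comm (k:ℝ) (q - 1),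
            Real.rpow_mul hw0.le, Real.rpow_natCast]
        rw [pow_zero, mul_one, e1, pow_mul, ← mul_pow]
    _ = (2 ^ q / (1 - 1 / Q)) ^ k := by
        congr 1
        rw [mul_pow, hθ2]
        have e : w ^ (q - 1) * Q = 2 ^ q := by rw [hQ]; field_simp
        have hQ0 : Q ≠ 0 := by linarith
        have h4 : 1 - 1 / Q = (Q - 1) / Q := by field_simp
        rw [h4]
        rw [← e]
        field_simp

lemma P_le {w q : ℝ} (hw1 : 1 ≤ w) (hw : w ^ 2 + 1 ≤ w ^ 3) (hw2 : w ≤ 2) (hq : 1 ≤ q) :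
    P q ≤ Real.logb 4 ((2:ℝ) ^ q / (1 - w ^ (q - 1) / 2 ^ q)) := by
  have hq0 : 0 < q := by linarith
  apply le_of_tendsto' (P_tendsto hq0)
  intro k
  rcases Nat.eq_zero_or_pos k with hk | hk
  · subst hk
    simp only [Nat.cast_zero, div_zero]
    apply Real.logb_nonneg (by norm_num)
    have h1 := Z_le_weight hw1 hw hw2 hq 1
    have h2 := Z_ge 1 hq0
    rw [pow_one] at h1
    have h3 : (1:ℝ) ≤ ((2:ℝ) ^ 1) ^ q := Real.one_le_rpow (by norm_num) hq0.le
    linarith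
  · have hk' : (0:ℝ) < k := by exact_mod_cast hk
    rw [div_le_iff₀ hk']
    have h1 : Real.logb 4 (Z k q) ≤ Real.logb 4 (((2:ℝ) ^ q / (1 - w ^ (q - 1) / 2 ^ q)) ^ k) :=
      Real.logb_le_logb_of_le (by norm_num) (Z_pos k hq0) (Z_le_weight hw1 hw hw2 hq k)
    rw [Real.logb_pow] at h1
    linarith

/-- a general way to bound a growth rate from below -/
lemma growth_le {u : ℕ → ℝ} {L c lam : ℝ} {k0 : ℕ} (hlim : Tendsto (fun k : ℕ => u k / (k:ℝ)) atTop (𝓝 L))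
    (h : ∀ k : ℕ, k0 ≤ k → k * lam - c * Real.log k - c ≤ u k) : lam ≤ L := by
  have h1 : Tendsto (fun k : ℕ => lam - c * (Real.log k / k) - c * (1 / (k:ℝ))) atTop
      (𝓝 (lam - c * 0 - c * 0)) := by
    apply Tendsto.sub
    · apply Tendsto.sub tendsto_const_nhds
      apply Tendsto.const_mul
      have h2 := Real.isLittleO_log_id_atTop.tendsto_div_nhds_zero
      exact (h2.comp tendsto_natCast_atTop_atTop)
    · exact tendsto_one_div_atTop_nhds_zero_nat.const_mul c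
  rw [mul_zero, sub_zero, sub_zero] at h1
  apply le_of_tendsto_of_tendsto h1 hlim
  filter_upwards [eventually_ge_atTop (max k0 1)] with k hk
  have hk' : (0:ℝ) < k := by
    have : 1 ≤ k := (le_max_right _ _).trans hk
    exact_mod_cast this
  have h2 := h k ((le_max_left _ _).trans hk)
  rw [le_div_iff₀ hk']
  have e : (lam - c * (Real.log k / k) - c * (1 / (k:ℝ))) * k = k * lam - c * Real.log k - c := by
    field_simp
  rw [e]
  exact h2

lemma P_ge_aux {q a : ℝ} (hq : 1 < q) (ha0 : 0 < a) (ha1 : a < 1)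
    (ha : 1 < ((2:ℝ) ^ q - 1) * a ^ 2) : Real.logb 4 ((a + 1 / a) ^ 2) ≤ P q := by
  have hq0 : 0 < q := by linarith
  have h2q : (2:ℝ) < 2 ^ q := by
    calc (2:ℝ) = 2 ^ (1:ℝ) := by norm_num
      _ < 2 ^ q := Real.rpow_lt_rpow_of_exponent_lt (by norm_num) hq
  obtain ⟨c, hc, n0, h⟩ := W_growth_big h2q ha0 ha1 ha
  apply growth_le (c := |Real.logb 4 c|) (k0 := n0) (P_tendsto hq0)
  intro k hk
  have h1 := h (2 * k) (by omega) (by omega)
  have h2 : W ((2:ℝ) ^ q) (2 * k) 0 ≤ Z k q := by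
    rw [← sum_D (2 * k) 0 (4 ^ k) (by rw [zero_add, one_mul, pow_mul]; norm_num)]
    apply Finset.sum_le_sum
    intro c _
    rw [B_eq_D]
    exact D_superadd hq.le (by norm_num) _ _ _
  have hlam : 0 < a + 1 / a := by positivity
  have h3 : Real.logb 4 (c * (a + 1 / a) ^ (2 * k)) ≤ Real.logb 4 (Z k q) :=
    Real.logb_le_logb_of_le (by norm_num) (by positivity) (h1.trans h2)
  rw [Real.logb_mul hc.ne' (by positivity), pow_mul, Real.logb_pow] at h3
  have h4 := neg_abs_le (Real.logb 4 c)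
  have h5 : 0 ≤ |Real.logb 4 c| * Real.log k :=
    mul_nonneg (abs_nonneg _) (Real.log_natCast_nonneg k)
  linarith

lemma P_ge {q : ℝ} (hq : 1 < q) : Real.logb 4 ((2:ℝ) ^ q / (1 - 1 / 2 ^ q)) ≤ P q := by
  have h2q : (2:ℝ) < 2 ^ q := by
    calc (2:ℝ) = 2 ^ (1:ℝ) := by norm_num
      _ < 2 ^ q := Real.rpow_lt_rpow_of_exponent_lt (by norm_num) hq
  set x : ℝ := 2 ^ q with hx
  set θ : ℝ := Real.sqrt (1 / (x - 1)) with hθ
  have hx1 : 1 < x - 1 := by linarith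
  have hθ0 : 0 < θ := Real.sqrt_pos.2 (by positivity)
  have hθ2 : θ ^ 2 = 1 / (x - 1) := Real.sq_sqrt (by positivity)
  have hθ1 : θ < 1 := by
    have h1 : 1 / (x - 1) < 1 := by rw [div_lt_one (by linarith)]; exact hx1
    nlinarith
  have hcont : Tendsto (fun a : ℝ => Real.logb 4 ((a + 1 / a) ^ 2)) (𝓝[>] θ)
      (𝓝 (Real.logb 4 ((θ + 1 / θ) ^ 2))) := by
    apply Tendsto.mono_left _ nhdsWithin_le_nhds
    have hc : ContinuousAt (fun a : ℝ => Real.logb 4 ((a + 1 / a) ^ 2)) θ := by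
      unfold Real.logb
      apply ContinuousAt.div_const
      apply ContinuousAt.log
      · apply ContinuousAt.pow
        apply ContinuousAt.add continuousAt_id
        exact continuousAt_const.div continuousAt_id hθ0.ne'
      · positivity
    exact hc
  have hfin : Real.logb 4 ((θ + 1 / θ) ^ 2) ≤ P q := by
    apply le_of_tendsto hcont
    have h3 : ∀ᶠ a in 𝓝[>] θ, a < 1 := by
      apply Filter.Eventually.filter_mono nhdsWithin_le_nhds
      exact eventually_lt_nhds hθ1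
    filter_upwards [h3, self_mem_nhdsWithin] with a ha1 ha
    rw [Set.mem_Ioi] at ha
    apply P_ge_aux hq (hθ0.trans ha) ha1
    have h4 : θ ^ 2 < a ^ 2 := by nlinarith
    rw [hθ2, div_lt_iff₀ (by linarith)] at h4
    linarith
  have e : (θ + 1 / θ) ^ 2 = x / (1 - 1 / x) := by
    have h5 : (θ + 1 / θ) ^ 2 = (θ ^ 2 + 1) ^ 2 / θ ^ 2 := by field_simp
    rw [h5, hθ2]
    have h6 : x - 1 ≠ 0 := by linarith
    have h7 : x ≠ 0 := by linarith
    have h8 : 1 - 1 / x = (x - 1) / x := by field_simp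
    rw [h8]
    field_simp
    ring
  rw [e] at hfin
  exact hfin

end Pool.Agent.K1H33.Tk
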