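import Pool.Agent.K1H33.Tk.Cover

/-!
# Upper bounds for the dimensions
-/

set_option autoImplicit false

namespace Pool.Agent.K1H33.Tk

open Finset Filter Topology Pool.Agent.H316R3.Tak

/-- the level set -/
def L (y : ℝ) : Set ℝ := {x | x ∈ Set.Icc (0:ℝ) 1 ∧ T x = y}

/-- covering lemma -/
lemma dimH_le_of_cover {b : ℝ} (hb : 1 < b) (A : ℕ → Finset ℕ) {D : ℝ} (hD : 0 < D)
    (hs : Summable fun n => ((A n).card : ℝ) * ((b ^ n)⁻¹) ^ D) (E : Set ℝ)
    (hE : ∀ x ∈ E, ∃ᶠ n in atTop, ∃ j ∈ A n, x ∈ Set.Icc ((j:ℝ) / b ^ n) ((j + 1) / b ^ n)) :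
    dimH E ≤ ENNReal.ofReal D := by
  have hb0 : 0 < b := by linarith
  have h := Pool.Agent.R425.MK.dimH_limsup (X := ℝ) (ι := Σ n : ℕ, {j // j ∈ A n})
    (fun i => Set.Icc ((i.2 : ℝ) / b ^ i.1) ((i.2 + 1) / b ^ i.1)) (fun i => (b ^ i.1)⁻¹)
    (fun i => by positivity) (fun i => by
      rw [Real.ediam_Icc]
      apply ENNReal.ofReal_le_ofReal
      apply le_of_eq
      field_simp
      ring) hD ?_
  · refine (dimH_mono ?_).trans h
    intro x hx
    have h1 := Nat.frequently_atTop_iff_infinite.1 (hE x hx)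
    simp only [Set.mem_ofPred_eq]
    apply Set.Infinite.of_image Sigma.fst
    refine h1.mono ?_
    rintro n ⟨j, hj, hjx⟩
    exact ⟨⟨n, ⟨j, hj⟩⟩, hjx, rfl⟩
  · rw [summable_sigma_of_nonneg (fun i => by positivity)]
    refine ⟨fun n => Summable.of_finite, ?_⟩
    refine hs.congr fun n => ?_
    rw [tsum_fintype]
    simp

lemma summable_poly_geom {C r : ℝ} (hr0 : 0 ≤ r) (hr1 : r < 1) :
    Summable fun n : ℕ => 2 * ((n:ℝ) + 1) * (C + (n + 1)) * r ^ n := by
  have hr : ‖r‖ < 1 := by rw [Real.norm_of_nonneg hr0]; exact hr1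
  have h0 := summable_pow_mul_geometric_of_norm_lt_one 0 hr
  have h1 := summable_pow_mul_geometric_of_norm_lt_one 1 hr
  have h2 := summable_pow_mul_geometric_of_norm_lt_one 2 hr
  refine (((h2.mul_left 2).add (h1.mul_left (2 * (C + 2)))).add
    (h0.mul_left (2 * (C + 1)))).congr fun n => ?_
  ring

/-- a level set whose balanced prefixes are rare has small dimension -/
lemma dimH_level_le {y a : ℝ} (ha : 0 ≤ a) {k0 : ℕ}
    (h : ∀ k, k0 ≤ k → (B k ⌊(4:ℝ) ^ k * y⌋₊ : ℝ) ≤ (4:ℝ) ^ (a * k)) :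
    dimH (L y) ≤ ENNReal.ofReal a := by
  classical
  apply ENNReal.le_of_forall_pos_le_add
  intro ε hε _
  have hε' : (0 : ℝ) < ε := by exact_mod_cast hε
  rw [← ENNReal.ofReal_coe_nnreal (p := ε), ← ENNReal.ofReal_add ha hε'.le]
  set A : ℕ → Finset ℕ := fun n => (range (2 ^ n)).filter (Mset n 0 y) with hA
  have hAM : ∀ n, (A n).card = M n 0 y := by
    intro n
    simp only [hA, M]
  -- the sum of the first numbers
  set C : ℝ := ∑ k ∈ range k0, (2:ℝ) ^ k with hC
  have hC0 : 0 ≤ C := Finset.sum_nonneg fun k _ => by positivity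
  have hbound : ∀ n : ℕ, (M n 0 y : ℝ) ≤ 2 * (n + 1) * (C + (n + 1)) * (2:ℝ) ^ (a * n) := by
    intro n
    have h1 := M_zero_bound n y
    have hp1 : (1:ℝ) ≤ (2:ℝ) ^ (a * n) := Real.one_le_rpow (by norm_num) (by positivity)
    have h2 : ∀ k ∈ range (n / 2 + 1), (B k ⌊(4:ℝ) ^ k * y⌋₊ : ℝ) ≤
        (if k < k0 then (2:ℝ) ^ k else 0) + (2:ℝ) ^ (a * n) := by
      intro k hk
      rw [Finset.mem_range] at hk
      have hB : (B k ⌊(4:ℝ) ^ k * y⌋₊ : ℝ) ≤ 2 ^ k := by exact_mod_cast B_le k _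
      have h3 : 2 * k ≤ n := by omega
      rcases lt_or_ge k k0 with h4 | h4
      · rw [if_pos h4]; linarith
      · rw [if_neg (by omega), zero_add]
        refine (h k h4).trans ?_
        have e : (4:ℝ) ^ (a * k) = (2:ℝ) ^ (a * (2 * k)) := by
          rw [show (4:ℝ) = (2:ℝ) ^ (2:ℝ) by norm_num, ← Real.rpow_mul (by norm_num)]
          congr 1; ring
        rw [e]
        apply Real.rpow_le_rpow_of_exponent_le (by norm_num)
        have : ((2 * k : ℕ) : ℝ) ≤ n := by exact_mod_cast h3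
        push_cast at this
        exact mul_le_mul_of_nonneg_left this ha
    have h3 := Finset.sum_le_sum h2
    rw [Finset.sum_add_distrib, Finset.sum_const, Finset.card_range, nsmul_eq_mul] at h3
    have h4 : ∑ k ∈ range (n / 2 + 1), (if k < k0 then (2:ℝ) ^ k else 0) ≤ C := by
      rw [← Finset.sum_filter, hC]
      apply Finset.sum_le_sum_of_subset_of_nonneg
      · intro k hk
        exact Finset.mem_range.2 (Finset.mem_filter.1 hk).2
      · intro k _ _; positivity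
    have h5 : (((n / 2 + 1 : ℕ) : ℝ)) ≤ n + 1 := by
      have : n / 2 + 1 ≤ n + 1 := by omega
      exact_mod_cast this
    have h6 : (((n / 2 + 1 : ℕ) : ℝ)) * (2:ℝ) ^ (a * n) ≤ (n + 1) * (2:ℝ) ^ (a * n) :=
      mul_le_mul_of_nonneg_right h5 (by positivity)
    have h7 : C ≤ C * (2:ℝ) ^ (a * n) := le_mul_of_one_le_right hC0 hp1
    refine h1.trans ?_
    have h8 : ∑ k ∈ range (n / 2 + 1), (B k ⌊(4:ℝ) ^ k * y⌋₊ : ℝ) ≤
        (C + (n + 1)) * (2:ℝ) ^ (a * n) := by
      push_cast at h3 h6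
      linarith
    calc 2 * ((n:ℝ) + 1) * ∑ k ∈ range (n / 2 + 1), (B k ⌊(4:ℝ) ^ k * y⌋₊ : ℝ)
        ≤ 2 * ((n:ℝ) + 1) * ((C + (n + 1)) * (2:ℝ) ^ (a * n)) :=
          mul_le_mul_of_nonneg_left h8 (by positivity)
      _ = _ := by ring
  set r : ℝ := (2:ℝ) ^ (-(ε:ℝ)) with hr
  have hr0 : 0 < r := by positivity
  have hr1 : r < 1 := Real.rpow_lt_one_of_one_lt_of_neg (by norm_num) (by linarith)
  apply dimH_le_of_cover (b := 2) (by norm_num) A (by positivity)
  · refine Summable.of_nonneg_of_le (fun n => by positivity) (fun n => ?_)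
      (summable_poly_geom (C := C) hr0.le hr1)
    rw [hAM]
    have e : (((2:ℝ) ^ n)⁻¹) ^ (a + (ε:ℝ)) = (2:ℝ) ^ (-(a * n)) * r ^ n := by
      rw [hr, ← Real.rpow_natCast 2 n, ← Real.rpow_neg (by norm_num),
        ← Real.rpow_mul (by norm_num), ← Real.rpow_natCast ((2:ℝ) ^ (-(ε:ℝ))) n,
        ← Real.rpow_mul (by norm_num), ← Real.rpow_add (by norm_num)]
      congr 1; ring
    rw [e]
    calc (M n 0 y : ℝ) * ((2:ℝ) ^ (-(a * n)) * r ^ n)
        ≤ (2 * (n + 1) * (C + (n + 1)) * (2:ℝ) ^ (a * n)) * ((2:ℝ) ^ (-(a * n)) * r ^ n) :=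
          mul_le_mul_of_nonneg_right (hbound n) (by positivity)
      _ = 2 * (n + 1) * (C + (n + 1)) * r ^ n * ((2:ℝ) ^ (a * n) * (2:ℝ) ^ (-(a * n))) := by ring
      _ = 2 * (n + 1) * (C + (n + 1)) * r ^ n := by
          rw [← Real.rpow_add (by norm_num), add_neg_cancel, Real.rpow_zero, mul_one]
  · rintro x ⟨⟨hx0, hx1⟩, hxy⟩
    apply Filter.Frequently.of_forall
    intro n
    have hp : (0:ℝ) < 2 ^ n := by positivity
    -- the index of the interval
    obtain ⟨j, hj, hj1, hj2⟩ : ∃ j : ℕ, j < 2 ^ n ∧ (j:ℝ) ≤ 2 ^ n * x ∧ 2 ^ n * x ≤ j + 1 := by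
      rcases hx1.eq_or_lt with h1 | h1
      · refine ⟨2 ^ n - 1, ?_, ?_, ?_⟩
        · have : 0 < 2 ^ n := by positivity
          omega
        · rw [h1, Nat.cast_sub Nat.one_le_two_pow]; push_cast; linarith
        · rw [h1, Nat.cast_sub Nat.one_le_two_pow]; push_cast; linarith
      · refine ⟨⌊2 ^ n * x⌋₊, ?_, Nat.floor_le (by positivity), (Nat.lt_floor_add_one _).le⟩
        rw [Nat.floor_lt (by positivity)]
        push_cast
        nlinarith
    refine ⟨j, ?_, ?_, ?_⟩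
    · rw [hA]
      refine Finset.mem_filter.2 ⟨Finset.mem_range.2 hj, 2 ^ n * x - j, by linarith, by linarith, ?_⟩
      have e : ((j:ℝ) + (2 ^ n * x - j)) / 2 ^ n = x := by field_simp; ring
      rw [e]
      push_cast
      rw [hxy]; ring
    · rw [div_le_iff₀ hp]; linarith
    · rw [le_div_iff₀ hp]; linarith

/-- above dimension one half there is nothing -/
lemma dimH_level_le_half (y : ℝ) : dimH (L y) ≤ ENNReal.ofReal (1 / 2) := by
  apply dimH_level_le (by norm_num) (k0 := 0)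
  intro k _
  have h : (B k ⌊(4:ℝ) ^ k * y⌋₊ : ℝ) ≤ 2 ^ k := by exact_mod_cast B_le k _
  rw [two_pow_eq] at h
  refine h.trans (le_of_eq ?_)
  congr 1; ring

/-- the set of the levels with large level sets -/
def E (α : ℝ) : Set ℝ := {y | y ∈ Set.Icc (0:ℝ) (2 / 3) ∧ ENNReal.ofReal α ≤ dimH (L y)}

lemma E_empty {α : ℝ} (hα : 1 / 2 < α) : E α = ∅ := by
  rw [Set.eq_empty_iff_forall_notMem]
  rintro y ⟨-, h⟩
  have h2 := h.trans (dimH_level_le_half y)
  rw [ENNReal.ofReal_le_ofReal_iff (by norm_num)] at h2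
  linarith

lemma dimH_E_le_s {α a : ℝ} (ha : 0 ≤ a) (haα : a < α) : dimH (E α) ≤ ENNReal.ofReal (s a) := by
  classical
  apply ENNReal.le_of_forall_pos_le_add
  intro ε hε _
  have hε' : (0 : ℝ) < ε := by exact_mod_cast hε
  rw [← ENNReal.ofReal_coe_nnreal (p := ε), ← ENNReal.ofReal_add (s_nonneg a) hε'.le]
  set A : ℕ → Finset ℕ := fun k => (range (4 ^ k)).filter fun c => (4:ℝ) ^ (a * k) ≤ (B k c : ℝ)
    with hA
  have hAN : ∀ k, (A k).card = N k ((4:ℝ) ^ (a * k)) := by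
    intro k
    simp only [hA, N]
  set r : ℝ := (4:ℝ) ^ (-(ε:ℝ)) with hr
  have hr0 : 0 < r := by positivity
  have hr1 : r < 1 := Real.rpow_lt_one_of_one_lt_of_neg (by norm_num) (by linarith)
  apply dimH_le_of_cover (b := 4) (by norm_num) A (by have := s_nonneg a; positivity)
  · rw [← summable_nat_add_iff 1]
    refine Summable.of_nonneg_of_le (fun k => by positivity) (fun k => ?_)
      ((summable_nat_add_iff 1).2 (summable_geometric_of_lt_one hr0.le hr1))
    rw [hAN]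
    have h1 := N_le_s a (k := k + 1) (by omega)
    have e : (((4:ℝ) ^ (k + 1))⁻¹) ^ (s a + (ε:ℝ)) =
        (4:ℝ) ^ (-(((k + 1 : ℕ) : ℝ) * s a)) * r ^ (k + 1) := by
      rw [hr, ← Real.rpow_natCast 4 (k + 1), ← Real.rpow_neg (by norm_num),
        ← Real.rpow_mul (by norm_num), ← Real.rpow_natCast ((4:ℝ) ^ (-(ε:ℝ))) (k + 1),
        ← Real.rpow_mul (by norm_num), ← Real.rpow_add (by norm_num)]
      congr 1; ring
    rw [e]
    calc (N (k + 1) ((4:ℝ) ^ (a * ((k + 1 : ℕ) : ℝ))) : ℝ) *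
          ((4:ℝ) ^ (-(((k + 1 : ℕ) : ℝ) * s a)) * r ^ (k + 1))
        ≤ (4:ℝ) ^ (((k + 1 : ℕ) : ℝ) * s a) *
          ((4:ℝ) ^ (-(((k + 1 : ℕ) : ℝ) * s a)) * r ^ (k + 1)) :=
          mul_le_mul_of_nonneg_right h1 (by positivity)
      _ = r ^ (k + 1) := by
          rw [← mul_assoc, ← Real.rpow_add (by norm_num), add_neg_cancel, Real.rpow_zero, one_mul]
  · rintro y ⟨⟨hy0, hy1⟩, hy⟩
    -- otherwise the level set is small
    by_contra hcon
    rw [Filter.not_frequently] at hcon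
    obtain ⟨k0, hk0⟩ := eventually_atTop.1 hcon
    have h1 : dimH (L y) ≤ ENNReal.ofReal a := by
      apply dimH_level_le ha (k0 := k0)
      intro k hk
      by_contra hB
      apply hk0 k hk
      have hp : (0:ℝ) < 4 ^ k := by positivity
      refine ⟨⌊(4:ℝ) ^ k * y⌋₊, ?_, ?_, ?_⟩
      · rw [hA]
        refine Finset.mem_filter.2 ⟨Finset.mem_range.2 ?_, (not_le.1 hB).le⟩
        rw [Nat.floor_lt (by positivity)]
        push_cast
        nlinarith
      · rw [div_le_iff₀ hp, mul_comm]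
        exact Nat.floor_le (by positivity)
      · rw [le_div_iff₀ hp, mul_comm]
        exact (Nat.lt_floor_add_one _).le
    have h2 := hy.trans h1
    rw [ENNReal.ofReal_le_ofReal_iff ha] at h2
    linarith

/-- the upper bound of the spectrum by the pressure -/
lemma dimH_E_le_P {α q : ℝ} (h0 : 0 ≤ α) (h1 : α ≤ 1 / 2) (hq : 1 ≤ q) :
    dimH (E α) ≤ ENNReal.ofReal (P q - q * α) := by
  rcases h0.eq_or_lt with h | h
  · -- the set has dimension at most one
    have h2 := s_add_le_P (α := 0) (q := q) (by norm_num) (by linarith)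
    have h3 := one_le_s_zero
    calc dimH (E α) ≤ dimH (Set.univ : Set ℝ) := dimH_mono (Set.subset_univ _)
      _ = 1 := Real.dimH_univ
      _ ≤ ENNReal.ofReal (P q - q * α) := by
          rw [← ENNReal.ofReal_one]
          apply ENNReal.ofReal_le_ofReal
          rw [← h]
          linarith
  · have hcont : Tendsto (fun a : ℝ => ENNReal.ofReal (P q - q * a)) (𝓝[<] α)
        (𝓝 (ENNReal.ofReal (P q - q * α))) := by
      apply Tendsto.mono_left _ nhdsWithin_le_nhds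
      apply ENNReal.tendsto_ofReal
      exact (continuous_const.sub (continuous_const.mul continuous_id)).tendsto α
    apply ge_of_tendsto hcont
    have h3 : ∀ᶠ a in 𝓝[<] α, 0 < a := by
      apply Filter.Eventually.filter_mono nhdsWithin_le_nhds
      exact eventually_gt_nhds h
    filter_upwards [h3, self_mem_nhdsWithin] with a ha1 ha
    rw [Set.mem_Iio] at ha
    refine (dimH_E_le_s ha1.le ha).trans ?_
    apply ENNReal.ofReal_le_ofReal
    have := s_add_le_P (α := a) (q := q) (by linarith) (by linarith)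
    linarith

/-- the upper bound of the spectrum -/
lemma dimH_E_le {α : ℝ} (h0 : 0 ≤ α) (h1 : α ≤ 1 / 2) : dimH (E α) ≤ ENNReal.ofReal (s α) := by
  apply ENNReal.le_of_forall_pos_le_add
  intro ε hε _
  have hε' : (0 : ℝ) < ε := by exact_mod_cast hε
  rw [← ENNReal.ofReal_coe_nnreal (p := ε), ← ENNReal.ofReal_add (s_nonneg α) hε'.le]
  obtain ⟨q, hq, h⟩ := exists_P_le h0 h1 hε'
  exact (dimH_E_le_P h0 h1 hq).trans (ENNReal.ofReal_le_ofReal h)

end Pool.Agent.K1H33.Tk
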