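import Pool.Agent.K1H33.Tk.Growth
import Pool.Agent.H316R3.Tak.Basic

/-!
# The Takagi function on dyadic intervals, balanced dyadic rationals
-/

set_option autoImplicit false

namespace Pool.Agent.K1H33.Tk

open Finset Pool.Agent.H316R3.Tak

/-- the binary digit sum -/
def S (j : ℕ) : ℕ := (Nat.digits 2 j).sum

lemma S_zero : S 0 = 0 := by simp [S]

lemma S_div (j : ℕ) : S j = j % 2 + S (j / 2) := by
  rcases Nat.eq_zero_or_pos j with h | h
  · subst h; simp [S]
  · unfold S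
    rw [Nat.digits_def' (by norm_num) h]
    simp

lemma S_append : ∀ (n i j : ℕ), j < 2 ^ n → S (i * 2 ^ n + j) = S i + S j := by
  intro n
  induction n with
  | zero => intro i j h; simp at h; subst h; simp [S_zero]
  | succ n ih =>
    intro i j h
    rw [S_div (i * 2 ^ (n + 1) + j), S_div j]
    have e1 : (i * 2 ^ (n + 1) + j) % 2 = j % 2 := by
      rw [pow_succ, ← mul_assoc]; omega
    have e2 : (i * 2 ^ (n + 1) + j) / 2 = i * 2 ^ n + j / 2 := by
      rw [pow_succ, ← mul_assoc]; omega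
    rw [e1, e2, ih i (j / 2) (by rw [pow_succ] at h; omega)]
    omega

lemma S_top (n j : ℕ) (h : j < 2 ^ n) : S (2 ^ n + j) = S j + 1 := by
  have h1 := S_append n 1 j h
  rw [one_mul] at h1
  rw [h1]
  have : S 1 = 1 := by simp [S]
  omega

/-- the Takagi function on the dyadic intervals -/
lemma T_word : ∀ (n i : ℕ) (z : ℝ), i < 2 ^ n → 0 ≤ z → z ≤ 1 →
    2 ^ n * T ((i + z) / 2 ^ n) = 2 ^ n * T (i / 2 ^ n) + T z + (n - 2 * S i) * z := by
  intro n
  induction n with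
  | zero =>
    intro i z h h0 h1
    simp at h
    subst h
    simp [T_zero, S_zero]
  | succ n ih =>
    intro i z h h0 h1
    have hp : (0:ℝ) < 2 ^ n := by positivity
    rcases lt_or_ge i (2 ^ n) with hi | hi
    · have hi' : (i:ℝ) + 1 ≤ 2 ^ n := by exact_mod_cast hi
      have h2 := ih i z hi h0 h1
      have e1 : T ((i + z) / 2 ^ (n + 1)) = (i + z) / 2 ^ (n + 1) + T ((i + z) / 2 ^ n) / 2 := by
        rw [T_left (by positivity)]
        · congr 3; rw [pow_succ]; field_simp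
        · rw [pow_succ, div_le_iff₀ (by positivity)]; linarith
      have e2 : T ((i:ℝ) / 2 ^ (n + 1)) = i / 2 ^ (n + 1) + T ((i:ℝ) / 2 ^ n) / 2 := by
        rw [T_left (by positivity)]
        · congr 3; rw [pow_succ]; field_simp
        · rw [pow_succ, div_le_iff₀ (by positivity)]; linarith
      rw [e1, e2]
      have e3 : (2:ℝ) ^ (n + 1) * ((i + z) / 2 ^ (n + 1) + T ((i + z) / 2 ^ n) / 2)
          = i + z + 2 ^ n * T ((i + z) / 2 ^ n) := by rw [pow_succ]; field_simp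
      have e4 : (2:ℝ) ^ (n + 1) * (i / 2 ^ (n + 1) + T ((i:ℝ) / 2 ^ n) / 2)
          = i + 2 ^ n * T ((i:ℝ) / 2 ^ n) := by rw [pow_succ]; field_simp
      rw [e3, e4, h2]
      push_cast
      ring
    · obtain ⟨j, rfl⟩ := Nat.exists_eq_add_of_le hi
      have hj : j < 2 ^ n := by rw [pow_succ] at h; omega
      have hj' : (j:ℝ) + 1 ≤ 2 ^ n := by exact_mod_cast hj
      have h2 := ih j z hj h0 h1
      have e1 : T ((((2 ^ n + j : ℕ) : ℝ) + z) / 2 ^ (n + 1))
          = 1 - (((2 ^ n + j : ℕ) : ℝ) + z) / 2 ^ (n + 1) + T ((j + z) / 2 ^ n) / 2 := by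
        rw [T_right]
        · congr 3; push_cast; rw [pow_succ]; field_simp; ring
        · rw [pow_succ, le_div_iff₀ (by positivity)]; push_cast; linarith [Nat.cast_nonneg (α := ℝ) j]
        · rw [pow_succ, div_le_iff₀ (by positivity)]; push_cast; linarith
      have e2 : T (((2 ^ n + j : ℕ) : ℝ) / 2 ^ (n + 1))
          = 1 - ((2 ^ n + j : ℕ) : ℝ) / 2 ^ (n + 1) + T ((j:ℝ) / 2 ^ n) / 2 := by
        rw [T_right]
        · congr 3; push_cast; rw [pow_succ]; field_simp; ring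
        · rw [pow_succ, le_div_iff₀ (by positivity)]; push_cast; linarith [Nat.cast_nonneg (α := ℝ) j]
        · rw [pow_succ, div_le_iff₀ (by positivity)]; push_cast; linarith
      rw [e1, e2, S_top n j hj]
      have e3 : (2:ℝ) ^ (n + 1) * (1 - (((2 ^ n + j : ℕ) : ℝ) + z) / 2 ^ (n + 1) +
          T ((j + z) / 2 ^ n) / 2) = 2 ^ (n + 1) - (2 ^ n + j + z) + 2 ^ n * T ((j + z) / 2 ^ n) := by
        push_cast; rw [pow_succ]; field_simp
      have e4 : (2:ℝ) ^ (n + 1) * (1 - ((2 ^ n + j : ℕ) : ℝ) / 2 ^ (n + 1) + T ((j:ℝ) / 2 ^ n) / 2)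
          = 2 ^ (n + 1) - (2 ^ n + j) + 2 ^ n * T ((j:ℝ) / 2 ^ n) := by
        push_cast; rw [pow_succ]; field_simp
      rw [e3, e4, h2]
      push_cast
      ring

open Classical in
/-- two-sided count: paths from height `m` to `0` in `n` steps with value `R` -/
noncomputable def cnt (n : ℕ) (m R : ℤ) : ℕ :=
  ((range (2 ^ n)).filter fun j : ℕ =>
    2 * (S j : ℤ) = n + m ∧ 2 ^ n * T ((j : ℝ) / 2 ^ n) + m * j = R).card

/-- splitting a filtered range at the top digit -/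
lemma card_split (n : ℕ) (p : ℕ → Prop) [DecidablePred p] :
    ((range (2 ^ (n + 1))).filter p).card =
      ((range (2 ^ n)).filter p).card +
        ((range (2 ^ n)).filter fun j => p (2 ^ n + j)).card := by
  rw [Finset.card_filter, Finset.card_filter, Finset.card_filter,
    show 2 ^ (n + 1) = 2 ^ n + 2 ^ n by ring, Finset.sum_range_add]

lemma val_left {n j : ℕ} (hj : j < 2 ^ n) (m : ℝ) :
    2 ^ (n + 1) * T ((j : ℝ) / 2 ^ (n + 1)) + m * j
      = 2 ^ n * T ((j : ℝ) / 2 ^ n) + (m + 1) * j := by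
  have hj' : (j:ℝ) + 1 ≤ 2 ^ n := by exact_mod_cast hj
  have e2 : T ((j:ℝ) / 2 ^ (n + 1)) = j / 2 ^ (n + 1) + T ((j:ℝ) / 2 ^ n) / 2 := by
    rw [T_left (by positivity)]
    · congr 3; rw [pow_succ]; field_simp
    · rw [pow_succ, div_le_iff₀ (by positivity)]; linarith
  rw [e2, pow_succ]
  field_simp
  ring

lemma val_right {n j : ℕ} (hj : j < 2 ^ n) (m : ℝ) :
    2 ^ (n + 1) * T (((2 ^ n + j : ℕ) : ℝ) / 2 ^ (n + 1)) + m * ((2 ^ n + j : ℕ) : ℝ)
      = 2 ^ n * T ((j : ℝ) / 2 ^ n) + (m - 1) * j + (m + 1) * 2 ^ n := by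
  have hj' : (j:ℝ) + 1 ≤ 2 ^ n := by exact_mod_cast hj
  have e2 : T (((2 ^ n + j : ℕ) : ℝ) / 2 ^ (n + 1))
      = 1 - ((2 ^ n + j : ℕ) : ℝ) / 2 ^ (n + 1) + T ((j:ℝ) / 2 ^ n) / 2 := by
    rw [T_right]
    · congr 3; push_cast; rw [pow_succ]; field_simp; ring
    · rw [pow_succ, le_div_iff₀ (by positivity)]; push_cast; linarith [Nat.cast_nonneg (α := ℝ) j]
    · rw [pow_succ, div_le_iff₀ (by positivity)]; push_cast; linarith
  rw [e2, pow_succ]
  push_cast
  field_simp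
  ring

lemma cnt_succ (n : ℕ) (m R : ℤ) :
    cnt (n + 1) m R = cnt n (m + 1) R + cnt n (m - 1) (R - (m + 1) * 2 ^ n) := by
  classical
  unfold cnt
  rw [card_split]
  congr 1
  · congr 1
    apply Finset.filter_congr
    intro j hj
    rw [Finset.mem_range] at hj
    have h1 := val_left hj (m : ℝ)
    constructor
    · rintro ⟨h2, h3⟩
      refine ⟨by push_cast at h2; omega, ?_⟩
      push_cast
      linarith
    · rintro ⟨h2, h3⟩
      refine ⟨by push_cast; omega, ?_⟩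
      push_cast at h3
      linarith
  · congr 1
    apply Finset.filter_congr
    intro j hj
    rw [Finset.mem_range] at hj
    have h1 := val_right hj (m : ℝ)
    rw [S_top n j hj]
    constructor
    · rintro ⟨h2, h3⟩
      refine ⟨by push_cast at h2; omega, ?_⟩
      push_cast
      linarith
    · rintro ⟨h2, h3⟩
      refine ⟨by push_cast; omega, ?_⟩
      push_cast at h3
      linarith

lemma cnt_zero (m R : ℤ) : cnt 0 m R = if m = 0 ∧ R = 0 then 1 else 0 := by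
  classical
  unfold cnt
  rw [Finset.card_filter]
  simp only [pow_zero, Finset.sum_range_one, S_zero]
  simp only [Nat.cast_zero, mul_zero, zero_add, zero_div, T_zero, add_zero]
  congr 1
  apply propext
  constructor
  · rintro ⟨h1, h2⟩
    exact ⟨h1.symm, by exact_mod_cast h2.symm⟩
  · rintro ⟨rfl, rfl⟩
    simp

lemma cnt_symm : ∀ (n : ℕ) (m R : ℤ), cnt n (-m) (R - m * 2 ^ n) = cnt n m R := by
  intro n
  induction n with
  | zero =>
    intro m R
    rw [cnt_zero, cnt_zero]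
    congr 1
    apply propext
    constructor
    · rintro ⟨h1, h2⟩
      have : m = 0 := by omega
      subst this
      simpa using h2
    · rintro ⟨rfl, rfl⟩
      simp
  | succ n ih =>
    intro m R
    rw [cnt_succ, cnt_succ n m R, add_comm]
    have h1 := ih (m - 1) (R - (m + 1) * 2 ^ n)
    have h2 := ih (m + 1) R
    rw [← h1, ← h2]
    congr 2 <;> ring

lemma cnt_neg {n : ℕ} {m R : ℤ} (hm : 0 ≤ m) (hR : R < 0) : cnt n m R = 0 := by
  classical
  unfold cnt
  rw [Finset.card_eq_zero, Finset.filter_eq_empty_iff]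
  rintro j - ⟨-, h⟩
  have h1 := T_nonneg ((j:ℝ) / 2 ^ n)
  have h2 : (0:ℝ) ≤ m := by exact_mod_cast hm
  have h3 : (R:ℝ) < 0 := by exact_mod_cast hR
  have h4 : 0 ≤ (2:ℝ) ^ n * T ((j:ℝ) / 2 ^ n) + m * j := by positivity
  linarith

lemma cnt_eq_D : ∀ (n m R : ℕ), (cnt n m R : ℝ) = D 2 n m R := by
  intro n
  induction n with
  | zero =>
    intro m R
    rw [cnt_zero]
    simp only [D, Nat.cast_eq_zero]
    split_ifs <;> simp
  | succ n ih =>
    intro m R
    rw [cnt_succ]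
    rcases m with _ | m
    · have h1 := cnt_symm n 1 R
      simp only [D]
      have e : cnt n ((0:ℕ) - 1 : ℤ) ((R:ℤ) - (((0:ℕ):ℤ) + 1) * 2 ^ n) = cnt n 1 R := by
        rw [← h1]; norm_num
      rw [e]
      have h2 := ih 1 R
      push_cast at h2 ⊢
      rw [h2]
      ring
    · simp only [D]
      have h1 := ih (m + 2) R
      have e1 : (((m + 1 : ℕ) : ℤ) + 1) = ((m + 2 : ℕ) : ℤ) := by push_cast; ring
      have e2 : (((m + 1 : ℕ) : ℤ) - 1) = (m : ℤ) := by push_cast; ring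
      rw [e1, e2]
      push_cast at h1 ⊢
      rw [h1]
      congr 1
      split_ifs with h
      · have h2 := ih m (R - (m + 2) * 2 ^ n)
        rw [← h2]
        congr 2
        rw [Nat.cast_sub h]
        push_cast
        ring
      · rw [cnt_neg]
        · simp
        · positivity
        · have : R < (m + 2) * 2 ^ n := not_le.1 h
          have h3 : (R:ℤ) < ((m + 2) * 2 ^ n : ℕ) := by exact_mod_cast this
          push_cast at h3
          linarith

open Classical in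
/-- the balanced dyadic rationals of level `2 k` with the value `c / 4 ^ k` -/
noncomputable def Bal (k c : ℕ) : Finset ℕ :=
  (range (4 ^ k)).filter fun j : ℕ => S j = k ∧ T ((j : ℝ) / 4 ^ k) = c / 4 ^ k

/-- their number -/
noncomputable def B (k c : ℕ) : ℕ := (Bal k c).card

lemma mem_Bal {k c j : ℕ} : j ∈ Bal k c ↔ j < 4 ^ k ∧ S j = k ∧ T ((j : ℝ) / 4 ^ k) = c / 4 ^ k := by
  unfold Bal
  rw [Finset.mem_filter, Finset.mem_range]

lemma B_eq_D (k c : ℕ) : (B k c : ℝ) = D 2 (2 * k) 0 c := by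
  classical
  rw [← cnt_eq_D]
  unfold B Bal cnt
  have e : (4:ℕ) ^ k = 2 ^ (2 * k) := by rw [pow_mul]; norm_num
  have e' : (4:ℝ) ^ k = 2 ^ (2 * k) := by rw [pow_mul]; norm_num
  rw [e, e']
  congr 2
  apply Finset.filter_congr
  intro j _
  have hp : (0:ℝ) < 2 ^ (2 * k) := by positivity
  constructor
  · rintro ⟨h1, h2⟩
    refine ⟨by push_cast; omega, ?_⟩
    rw [h2]
    push_cast
    field_simp
    ring
  · rintro ⟨h1, h2⟩
    refine ⟨by push_cast at h1; omega, ?_⟩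
    push_cast at h2
    rw [eq_div_iff hp.ne']
    linarith

/-- value at a point below a balanced dyadic rational -/
lemma T_bal {k c j : ℕ} (h : j ∈ Bal k c) {z : ℝ} (h0 : 0 ≤ z) (h1 : z ≤ 1) :
    T ((j + z) / 4 ^ k) = (c + T z) / 4 ^ k := by
  obtain ⟨h2, h3, h4⟩ := mem_Bal.1 h
  have e : (4:ℕ) ^ k = 2 ^ (2 * k) := by rw [pow_mul]; norm_num
  have e' : (4:ℝ) ^ k = 2 ^ (2 * k) := by rw [pow_mul]; norm_num
  have hp : (0:ℝ) < 2 ^ (2 * k) := by positivity
  rw [e] at h2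
  have h5 := T_word (2 * k) j z h2 h0 h1
  rw [← e', h4, h3] at h5
  have hp4 : (0:ℝ) < 4 ^ k := by positivity
  rw [eq_div_iff hp4.ne', mul_comm, h5]
  push_cast
  field_simp
  ring

/-- concatenation -/
lemma Bal_append {k l c c' i j : ℕ} (hi : i ∈ Bal k c) (hj : j ∈ Bal l c') :
    i * 4 ^ l + j ∈ Bal (k + l) (c * 4 ^ l + c') := by
  obtain ⟨i1, i2, i3⟩ := mem_Bal.1 hi
  obtain ⟨j1, j2, j3⟩ := mem_Bal.1 hj
  have hp : (0:ℝ) < 4 ^ l := by positivity
  rw [mem_Bal]
  refine ⟨?_, ?_, ?_⟩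
  · calc i * 4 ^ l + j < i * 4 ^ l + 4 ^ l := by omega
      _ = (i + 1) * 4 ^ l := by ring
      _ ≤ 4 ^ k * 4 ^ l := by gcongr; omega
      _ = 4 ^ (k + l) := by rw [pow_add]
  · have e : (4:ℕ) ^ l = 2 ^ (2 * l) := by rw [pow_mul]; norm_num
    rw [e] at j1 ⊢
    rw [S_append _ _ _ j1, i2, j2]
  · have hz1 : (j:ℝ) / 4 ^ l ≤ 1 := by
      rw [div_le_one hp]; exact_mod_cast j1.le
    have h := T_bal hi (z := (j:ℝ) / 4 ^ l) (by positivity) hz1
    rw [j3] at h
    have e1 : ((i * 4 ^ l + j : ℕ) : ℝ) / 4 ^ (k + l) = ((i:ℝ) + (j:ℝ) / 4 ^ l) / 4 ^ k := by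
      push_cast; rw [pow_add]; field_simp
    rw [e1, h]
    push_cast; rw [pow_add]; field_simp

lemma B_append (k l c c' : ℕ) : B k c * B l c' ≤ B (k + l) (c * 4 ^ l + c') := by
  classical
  unfold B
  rw [← Finset.card_product]
  apply Finset.card_le_card_of_injOn (fun p : ℕ × ℕ => p.1 * 4 ^ l + p.2)
  · rintro ⟨i, j⟩ h
    have h' := Finset.mem_product.1 (Finset.mem_coe.1 h)
    exact Finset.mem_coe.2 (Bal_append h'.1 h'.2)
  · rintro ⟨i, j⟩ h ⟨i', j'⟩ h' heq
    have h1 := Finset.mem_product.1 (Finset.mem_coe.1 h)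
    have h2 := Finset.mem_product.1 (Finset.mem_coe.1 h')
    have j1 : j < 4 ^ l := (mem_Bal.1 h1.2).1
    have j2 : j' < 4 ^ l := (mem_Bal.1 h2.2).1
    simp only at heq
    have hp : 0 < 4 ^ l := by positivity
    have e1 : (i * 4 ^ l + j) / 4 ^ l = i := by
      rw [mul_comm, Nat.mul_add_div hp, Nat.div_eq_of_lt j1, add_zero]
    have e2 : (i' * 4 ^ l + j') / 4 ^ l = i' := by
      rw [mul_comm, Nat.mul_add_div hp, Nat.div_eq_of_lt j2, add_zero]
    have e3 : i = i' := by rw [← e1, heq, e2]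
    subst e3
    have : j = j' := by omega
    rw [this]

/-- the sup bound for `B` -/
lemma B_le (k c : ℕ) : B k c ≤ 2 ^ k := by
  have h1 := D_le (w := 2) (y := Real.sqrt 2) (by
    rw [show (1:ℝ) = Real.sqrt 1 by simp]; exact Real.sqrt_le_sqrt (by norm_num))
    (Real.sq_sqrt (by norm_num)) (by norm_num) (2 * k) 0 c
  rw [← B_eq_D, pow_zero, mul_one, pow_mul, Real.sq_sqrt (by norm_num)] at h1
  exact_mod_cast h1

/-- balanced numbers are not extreme -/
lemma Bal_lt {k c j : ℕ} (hk : 1 ≤ k) (h : j ∈ Bal k c) : j + 2 ≤ 4 ^ k := by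
  obtain ⟨h1, h2, -⟩ := mem_Bal.1 h
  by_contra hcon
  have h3 : j = 4 ^ k - 1 := by omega
  -- the digit sum of `4 ^ k - 1`
  have h4 : ∀ n : ℕ, S (2 ^ n - 1) = n := by
    intro n
    induction n with
    | zero => simp [S_zero]
    | succ n ih =>
      have hp : 1 ≤ 2 ^ n := Nat.one_le_two_pow
      have e : 2 ^ (n + 1) - 1 = 2 ^ n + (2 ^ n - 1) := by rw [pow_succ]; omega
      rw [e, S_top n _ (by omega), ih]
  have e : (4:ℕ) ^ k = 2 ^ (2 * k) := by rw [pow_mul]; norm_num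
  rw [h3, e, h4] at h2
  omega

lemma T_le (x : ℝ) (h0 : 0 ≤ x) (h1 : x ≤ 1) : T x ≤ 2 / 3 := by
  have := T_bound 0 x h0 h1
  simpa using this

lemma B_pos_lt {k c : ℕ} (hk : 1 ≤ k) (h : 0 < B k c) : c + 2 ≤ 4 ^ k := by
  obtain ⟨j, hj⟩ := Finset.card_pos.1 h
  obtain ⟨h1, h2, h3⟩ := mem_Bal.1 hj
  have hp : (0:ℝ) < 4 ^ k := by positivity
  have h4 := T_le ((j:ℝ) / 4 ^ k) (by positivity) (by
    rw [div_le_one hp]; exact_mod_cast h1.le)
  rw [h3, div_le_iff₀ hp] at h4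
  have h5 : (4:ℝ) ≤ 4 ^ k := by
    calc (4:ℝ) = 4 ^ 1 := by norm_num
      _ ≤ 4 ^ k := pow_le_pow_right₀ (by norm_num) hk
  have h6 : (c:ℝ) + 1 < 4 ^ k := by linarith
  have h7 : c + 1 < 4 ^ k := by exact_mod_cast h6
  omega

end Pool.Agent.K1H33.Tk
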